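import Pool.Agent.H26.Tri.LLD

/-!
# Project TRI, light lemma LL
-/

set_option autoImplicit false

open MeasureTheory Set Complex Metric Filter Topology
open scoped Real ENNReal NNReal FourierTransform ComplexConjugate

namespace Pool.Agent.H24.Tri

theorem lerr_mono {L : ℝ} (hL0 : 0 ≤ L) (α β γ : ℂ) {CG Cg R k k' d : ℝ} (hR : 0 ≤ R)
    (hk0 : 0 ≤ k) (hk : k ≤ k') (hd : 0 ≤ d) :
    lerr L α β γ CG Cg R k d ≤ lerr L α β γ CG Cg R k' d := by
  unfold lerr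
  gcongr

/-- the main estimate with explicit errors -/
theorem ll_est {L : ℝ} (hL0 : 0 ≤ L) (hL : ∀ x y : ℂ, |psi0 x - psi0 y| ≤ L * ‖x - y‖)
    (α β γ : ℂ) {G g h : ℂ → ℂ} (hGc : Continuous G) (hgc : Continuous g) (hh : Measurable h)
    {Ch CG Cg R η : ℝ} (hCh : ∀ x, ‖h x‖ ≤ Ch)
    (hR : 0 ≤ R) (hC : ∀ x, ‖G x‖ ≤ CG)
    (hGl : ∀ x y, ‖G x - G y‖ ≤ CG * R * ‖x - y‖) (hg : ∀ x, ‖g x‖ ≤ Cg)
    (hgl : ∀ x y, ‖g x - g y‖ ≤ Cg * R * ‖x - y‖) {r : ℝ} (hr : 0 < r) (hr1 : r ≤ 1)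
    {ε : ℝ} (hε : 0 ≤ ε) {n : ℕ} (hn : 0 < n) (hη : 0 < η) (hη1 : η ≤ 1)
    (hsm : ∀ j < n, ∀ F : ℂ → ℂ, Measurable F → (∃ K : ℝ, ∀ x, ‖F x‖ ≤ K) →
      (∃ D : ℝ, ∀ x, D ≤ ‖x‖ → F x = 0) →
      ∫⁻ x, ‖circConv (arcb n j) (α - β) (fun y => F y - moll psiSq r F y) x‖ₑ ^ 2 ≤
        ENNReal.ofReal ε * ∫⁻ x, ‖F x‖ₑ ^ 2)
    (ρ : ℝ) (hρ : 1 + ‖γ - α‖ + ‖α‖ ≤ ρ) (hρ' : 1 + ‖γ‖ ≤ ρ) :
    ‖Iform α β γ h G g‖ ^ 2 ≤ Ch ^ 2 * (ar ρ * (2 * π * (
      2 * π * (lerr L α β γ CG Cg R η (2 * π / n) * ar ρ) +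
        Cg ^ 2 * (n * Real.sqrt (ar (2 + ‖γ - α‖ + ‖α - β‖) * (ε * (CG ^ 4 * ar (1 + ‖γ - α‖)))) +
          2 * π * (2 * L * r * CG ^ 2 * ar (2 + ‖γ - α‖))) +
        Cg ^ 2 * (2 * π) * Real.sqrt (ar (2 + ‖γ - α‖) *
          ∫ y in closedBall (0 : ℂ) (2 + ‖γ - α‖), avgA α n η r G y)))) := by
  have hCG : 0 ≤ CG := (norm_nonneg _).trans (hC 0)
  have hCg : 0 ≤ Cg := (norm_nonneg _).trans (hg 0)
  have hCh0 : 0 ≤ Ch := (norm_nonneg _).trans (hCh 0)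
  have hn' : (0 : ℝ) < n := by exact_mod_cast hn
  have hpi := Real.pi_pos
  set D := 2 + ‖γ - α‖ with hD
  have hνρ : IsFiniteMeasure (volume.restrict (closedBall (0 : ℂ) ρ)) :=
    isFiniteMeasure_restrict.2 measure_closedBall_lt_top.ne
  have h1 := ll_form α β γ hGc hgc hh hCh hC hg ρ hρ'
  refine h1.trans (mul_le_mul_of_nonneg_left (mul_le_mul_of_nonneg_left ?_ (ar_nonneg _))
    (by positivity))
  have h2 := ll_vdc (FF α β γ G g) (FF_continuous α β γ hGc hgc) (CG * Cg)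
    (FF_bound α β γ hC hg) (FF_periodic α β γ G g) (volume.restrict (closedBall (0 : ℂ) ρ)) η hη
  refine h2.trans (mul_le_mul_of_nonneg_left ?_ (by positivity))
  -- notation
  set μh : Measure ℝ := volume.restrict (Ioc 0 η) with hμh
  set ν : Measure ℂ := volume.restrict (closedBall (0 : ℂ) D) with hν
  have hνf : IsFiniteMeasure ν := isFiniteMeasure_restrict.2 measure_closedBall_lt_top.ne
  have hνm : ν.real univ = ar D := by
    rw [hν, measureReal_restrict_apply MeasurableSet.univ, univ_inter]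
    rfl
  have hmass : μh.real univ = η := by
    rw [hμh, measureReal_restrict_apply MeasurableSet.univ, univ_inter,
      Real.volume_real_Ioc_of_le hη.le, sub_zero]
  set S := Real.sqrt (ar (D + ‖α - β‖) * (ε * (CG ^ 4 * ar (1 + ‖γ - α‖)))) with hS
  set c₀ : ℝ := 2 * π * (lerr L α β γ CG Cg R η (2 * π / n) * ar ρ) +
    Cg ^ 2 * (n * S + 2 * π * (2 * L * r * CG ^ 2 * ar D)) with hc₀
  set bb : ℕ → ℝ × ℝ → ℝ := fun j q => ∫ y, ‖acorr r G y
    (((q.1 - q.2 : ℝ) : ℂ) * (Complex.I * α * cis (2 * π * j / n)))‖ ∂ν with hbb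
  have hbbc : ∀ j, Continuous (bb j) := by
    intro j
    refine continuous_of_dominated (bound := fun _ => CG ^ 2) (fun q => ?_)
      (fun q => Eventually.of_forall fun y => ?_) (integrable_const _)
      (Eventually.of_forall fun y => ?_)
    · exact (ll_acorr_cont_left hr hGc hC _).norm.aestronglyMeasurable
    · rw [norm_norm]
      exact ll_acorr_bound hr hC _ _
    · have h3 : Continuous fun q : ℝ × ℝ =>
          (y, ((q.1 - q.2 : ℝ) : ℂ) * (Complex.I * α * cis (2 * π * j / n))) := by fun_prop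
      have h4 := (ll_acorr_continuous hr hGc hC).comp h3
      exact h4.norm
  have hbb0 : ∀ j q, 0 ≤ bb j q := fun j q => integral_nonneg fun y => norm_nonneg _
  have hbbb : ∀ j q, ‖bb j q‖ ≤ CG ^ 2 * ar D := by
    intro j q
    rw [← hνm]
    refine norm_integral_le_of_norm_le_const (Eventually.of_forall fun y => ?_)
    rw [norm_norm]
    exact ll_acorr_bound hr hC _ _
  set gg : ℝ × ℝ → ℝ := fun q => c₀ + Cg ^ 2 * (2 * π / n) * ∑ j ∈ Finset.range n, bb j q with hgg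
  have hbbi : ∀ j, Integrable (bb j) (μh.prod μh) := fun j => ll_int _ (hbbc j) _ (hbbb j)
  have hgi : Integrable gg (μh.prod μh) :=
    (integrable_const _).add ((integrable_finsetSum _ fun j _ => hbbi j).const_mul _)
  have hgi' : ∀ h, Integrable (fun h' => gg (h, h')) μh := by
    intro h
    have h3 : ∀ j, Integrable (fun h' => bb j (h, h')) μh := by
      intro j
      have h4 : Continuous fun h' : ℝ => (h, h') := by fun_prop
      have h5 := (hbbc j).comp h4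
      exact ll_int _ h5 _ fun h' => hbbb j _
    exact (integrable_const _).add ((integrable_finsetSum _ fun j _ => h3 j).const_mul _)
  -- pointwise bound
  have hpt : ∀ h ∈ Ioc 0 η, ∀ h' ∈ Ioc 0 η,
      ‖∫ θ in Ioc 0 (2 * π), ∫ z in closedBall (0 : ℂ) ρ,
        FF α β γ G g z θ * conj (FF α β γ G g z (θ + (h - h')))‖ ≤ gg (h, h') := by
    intro h hh1 h' hh2
    have hk : |h - h'| ≤ η := by
      rw [abs_le]
      constructor <;> linarith [hh1.1, hh1.2, hh2.1, hh2.2]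
    have h3 := ll_E hL0 hL α β γ hGc hgc hR hC hGl hg hgl hr hr1 hε hn hsm ρ hρ (h - h')
      (hk.trans hη1)
    refine h3.trans ?_
    have h4 : ∀ j ∈ Finset.range n,
        lerr L α β γ CG Cg R |h - h'| (2 * π / n) * ar ρ * (2 * π / n) +
        Cg ^ 2 * (Real.sqrt (ar (2 + ‖γ - α‖ + ‖α - β‖) * (ε * (CG ^ 4 * ar (1 + ‖γ - α‖)))) +
          2 * π / n * ((∫ y in closedBall (0 : ℂ) (2 + ‖γ - α‖),
            ‖acorr r G y (((h - h' : ℝ) : ℂ) * (Complex.I * α * cis (2 * π * j / n)))‖) +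
          2 * L * r * CG ^ 2 * ar (2 + ‖γ - α‖))) ≤
        (lerr L α β γ CG Cg R η (2 * π / n) * ar ρ * (2 * π / n) +
        Cg ^ 2 * (S + 2 * π / n * (2 * L * r * CG ^ 2 * ar D))) +
          Cg ^ 2 * (2 * π / n) * bb j (h, h') := by
      intro j _
      have h5 : lerr L α β γ CG Cg R |h - h'| (2 * π / n) * ar ρ * (2 * π / n) ≤
          lerr L α β γ CG Cg R η (2 * π / n) * ar ρ * (2 * π / n) := by
        refine mul_le_mul_of_nonneg_right (mul_le_mul_of_nonneg_right ?_ (ar_nonneg _))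
          (by positivity)
        exact lerr_mono hL0 α β γ hR (abs_nonneg _) hk (by positivity)
      rw [← hD, ← hS, hbb]
      simp only
      rw [← hν]
      linarith
    refine (Finset.sum_le_sum h4).trans (le_of_eq ?_)
    rw [Finset.sum_add_distrib, Finset.sum_const, Finset.card_range, nsmul_eq_mul, hgg]
    simp only
    rw [Finset.mul_sum, hc₀]
    congr 1
    field_simp
  have h3 : ∫ h, ∫ h', ‖∫ θ in Ioc 0 (2 * π), ∫ z in closedBall (0 : ℂ) ρ,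
      FF α β γ G g z θ * conj (FF α β γ G g z (θ + (h - h')))‖ ∂μh ∂μh ≤
      ∫ h, ∫ h', gg (h, h') ∂μh ∂μh := by
    refine integral_mono_of_nonneg (Eventually.of_forall fun h => integral_nonneg fun h' =>
      norm_nonneg _) hgi.integral_prod_left ?_
    refine (ae_restrict_iff' measurableSet_Ioc).2 (Eventually.of_forall fun h hh1 => ?_)
    refine integral_mono_of_nonneg (Eventually.of_forall fun h' => norm_nonneg _) (hgi' h) ?_
    exact (ae_restrict_iff' measurableSet_Ioc).2 (Eventually.of_forall fun h' hh2 =>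
      hpt h hh1 h' hh2)
  have h4 : ∫ h, ∫ h', gg (h, h') ∂μh ∂μh = c₀ * η ^ 2 + Cg ^ 2 * (2 * π / n) *
      ∑ j ∈ Finset.range n, ∫ h, ∫ h', bb j (h, h') ∂μh ∂μh := by
    have h5 : ∀ j, ∫ h, ∫ h', bb j (h, h') ∂μh ∂μh = ∫ q, bb j q ∂(μh.prod μh) := fun j =>
      (integral_prod _ (hbbi j)).symm
    have h6 : (μh.prod μh).real univ = η ^ 2 := by
      rw [← hmass, measureReal_def, measureReal_def, ← univ_prod_univ, Measure.prod_prod,
        ENNReal.toReal_mul, sq]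
    simp_rw [h5]
    rw [← integral_prod _ hgi, hgg,
      integral_add (integrable_const _) ((integrable_finsetSum _ fun j _ => hbbi j).const_mul _),
      integral_const, h6, integral_const_mul, integral_finsetSum _ fun j _ => hbbi j, smul_eq_mul]
    ring
  have h5 := ll_avg α hn hη hr hGc hC D
  rw [← hν, ← hμh] at h5
  calc (η ^ 2)⁻¹ * ∫ h, ∫ h', ‖∫ θ in Ioc 0 (2 * π), ∫ z in closedBall (0 : ℂ) ρ,
        FF α β γ G g z θ * conj (FF α β γ G g z (θ + (h - h')))‖ ∂μh ∂μh ≤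
        (η ^ 2)⁻¹ * (c₀ * η ^ 2 + Cg ^ 2 * (2 * π / n) *
          ∑ j ∈ Finset.range n, ∫ h, ∫ h', bb j (h, h') ∂μh ∂μh) :=
        mul_le_mul_of_nonneg_left (h3.trans h4.le) (by positivity)
    _ = c₀ + Cg ^ 2 * (2 * π) * ((n : ℝ)⁻¹ * ∑ j ∈ Finset.range n, (η ^ 2)⁻¹ *
          ∫ h, ∫ h', bb j (h, h') ∂μh ∂μh) := by
        rw [← Finset.mul_sum]
        field_simp
    _ ≤ c₀ + Cg ^ 2 * (2 * π) * Real.sqrt (ar D * ∫ y, avgA α n η r G y ∂ν) := by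
        refine add_le_add_right (mul_le_mul_of_nonneg_left ?_ (by positivity)) _
        exact h5

/-- simultaneous choice of `r₀` for finitely many arcs -/
theorem ll_choose (P : ℕ → ℝ → Prop)
    (hP : ∀ j, ∃ r₀ : ℝ, 0 < r₀ ∧ ∀ r : ℝ, 0 < r → r ≤ r₀ → P j r) (n : ℕ) :
    ∃ r₀ : ℝ, 0 < r₀ ∧ ∀ r : ℝ, 0 < r → r ≤ r₀ → ∀ j < n, P j r := by
  induction n with
  | zero => exact ⟨1, one_pos, fun r _ _ j hj => absurd hj (Nat.not_lt_zero j)⟩
  | succ n ih =>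
    obtain ⟨a, ha, ha2⟩ := ih
    obtain ⟨b, hb, hb2⟩ := hP n
    refine ⟨min a b, lt_min ha hb, fun r hr hrr j hj => ?_⟩
    rcases Nat.lt_succ_iff_lt_or_eq.1 hj with h | h
    · exact ha2 r hr (hrr.trans (min_le_left _ _)) j h
    · rw [h]
      exact hb2 r hr (hrr.trans (min_le_right _ _))

/-- SL-1: light lemma LL -/
theorem LL (α β γ : ℂ) (hα : α ≠ 0) (hαβ : β ≠ α) : ∃ Cs D : ℝ, 0 < Cs ∧ 0 < D ∧
    ∀ Ch CG Cg H δ : ℝ, 0 < Ch → 0 < CG → 0 < Cg → 1 ≤ H → 0 < δ →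
    ∃ n₀ : ℕ, ∀ n : ℕ, n₀ ≤ n → 0 < n → ∃ r₀ : ℝ, 0 < r₀ ∧ ∀ r : ℝ, 0 < r → r ≤ r₀ →
    ∃ R₀ : ℝ, 1 ≤ R₀ ∧ ∀ R : ℝ, R₀ ≤ R → ∀ h G g : ℂ → ℂ, Measurable h →
      (∀ x, ‖h x‖ ≤ Ch) → (∀ x, ‖G x‖ ≤ CG) → (∀ x y, ‖G x - G y‖ ≤ CG * R * ‖x - y‖) →
      (∀ x, ‖g x‖ ≤ Cg) → (∀ x y, ‖g x - g y‖ ≤ Cg * R * ‖x - y‖) →
      ‖Iform α β γ h G g‖ ^ 2 ≤
        Cs * Ch ^ 2 * Cg ^ 2 * Real.sqrt (∫ y in closedBall (0 : ℂ) D, avgA α n (H / R) r G y)
          + δ := by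
  have _ := hα
  have hpi := Real.pi_pos
  obtain ⟨L, hL0, hL⟩ := ll_psi0_lip
  set ρ : ℝ := 1 + ‖γ‖ + (1 + ‖γ - α‖ + ‖α‖) with hρ
  have hρ1 : 1 + ‖γ - α‖ + ‖α‖ ≤ ρ := by
    have := norm_nonneg γ
    linarith
  have hρ2 : 1 + ‖γ‖ ≤ ρ := by
    have := norm_nonneg α
    have := norm_nonneg (γ - α)
    linarith
  have hρ0 : 0 < ρ := by
    have := norm_nonneg γ
    linarith
  set D : ℝ := 2 + ‖γ - α‖ with hD
  have hD0 : 0 < D := by
    have := norm_nonneg (γ - α)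
    linarith
  have hAρ := ar_pos hρ0
  have hAD := ar_pos hD0
  refine ⟨ar ρ * (2 * π) * (2 * π) * Real.sqrt (ar D), D, by positivity, hD0, ?_⟩
  intro Ch CG Cg H δ hCh hCG hCg hH hδ
  have hH0 : 0 < H := by linarith
  -- the constants
  set P : ℝ := Ch ^ 2 * (ar ρ * (2 * π)) with hP
  have hP0 : 0 < P := by positivity
  set X1 : ℝ := P * (2 * π * (CG ^ 2 * Cg ^ 2 * (2 * L * ‖γ - α‖ * (2 * π) +
    (‖α‖ + ‖β‖) * (H * (2 * π))) * ar ρ)) with hX1
  have hX10 : 0 ≤ X1 := by positivity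
  obtain ⟨n₀, hn₀⟩ := exists_nat_gt (X1 / (δ / 4))
  refine ⟨n₀, fun n hnn hn => ?_⟩
  have hn' : (0 : ℝ) < n := by exact_mod_cast hn
  have hT1 : X1 / n ≤ δ / 4 := by
    rw [div_le_iff₀ hn']
    have h1 : (n₀ : ℝ) ≤ n := by exact_mod_cast hnn
    rw [div_lt_iff₀ (by positivity)] at hn₀
    nlinarith
  -- epsilon
  set A : ℝ := ar (D + ‖α - β‖) * (CG ^ 4 * ar (1 + ‖γ - α‖)) with hA
  have hA0 : 0 ≤ A := mul_nonneg (ar_nonneg _) (mul_nonneg (by positivity) (ar_nonneg _))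
  set X2 : ℝ := P * (Cg ^ 2 * (n * Real.sqrt A)) with hX2
  have hX20 : 0 ≤ X2 := by positivity
  set ε : ℝ := (δ / 4 / (X2 + 1)) ^ 2 with hε
  have hε0 : 0 < ε := by positivity
  have hT2 : X2 * Real.sqrt ε ≤ δ / 4 := by
    rw [hε, Real.sqrt_sq (by positivity)]
    rw [mul_div_assoc', div_le_iff₀ (by positivity)]
    nlinarith
  -- r
  have hsub : α - β ≠ 0 := sub_ne_zero.2 hαβ.symm
  obtain ⟨r₁, hr₁, hsm⟩ := ll_choose (fun j r => ∀ F : ℂ → ℂ, Measurable F →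
      (∃ K : ℝ, ∀ x, ‖F x‖ ≤ K) → (∃ D : ℝ, ∀ x, D ≤ ‖x‖ → F x = 0) →
      ∫⁻ x, ‖circConv (arcb n j) (α - β) (fun y => F y - moll psiSq r F y) x‖ₑ ^ 2 ≤
        ENNReal.ofReal ε * ∫⁻ x, ‖F x‖ₑ ^ 2)
    (fun j => sm (arcb n j) (arcb_measurable n j) (arcb_nonneg n j) 1 (arcb_le_one n j) (α - β) hsub
      psiSq psiSq_continuous psiSq_nonneg psiSq_even psiSq_integral psiSq_zero ε hε0) n
  set X3 : ℝ := P * (Cg ^ 2 * (2 * π * (2 * L * CG ^ 2 * ar D))) with hX3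
  have hX30 : 0 ≤ X3 := by positivity
  refine ⟨min (min r₁ 1) (δ / 4 / (X3 + 1)), by positivity, fun r hr hrr => ?_⟩
  have hr1 : r ≤ r₁ := hrr.trans ((min_le_left _ _).trans (min_le_left _ _))
  have hr2 : r ≤ 1 := hrr.trans ((min_le_left _ _).trans (min_le_right _ _))
  have hr3 : r ≤ δ / 4 / (X3 + 1) := hrr.trans (min_le_right _ _)
  have hT3 : X3 * r ≤ δ / 4 := by
    rw [le_div_iff₀ (by positivity)] at hr3
    nlinarith
  -- R
  set X4 : ℝ := P * (2 * π * (CG ^ 2 * Cg ^ 2 * (L * ‖γ‖ * H + (‖α‖ + ‖β‖) * H ^ 2) * ar ρ))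
    with hX4
  have hX40 : 0 ≤ X4 := by positivity
  refine ⟨max H (X4 / (δ / 4)), hH.trans (le_max_left _ _), fun R hR h G g hh hhb hGb hGl hgb hgl => ?_⟩
  have hRH : H ≤ R := (le_max_left _ _).trans hR
  have hR0 : 0 < R := by linarith
  have hT4 : X4 / R ≤ δ / 4 := by
    have h1 := (le_max_right H (X4 / (δ / 4))).trans hR
    rw [div_le_iff₀ (by positivity)] at h1
    rw [div_le_iff₀ hR0]
    linarith
  have hη : 0 < H / R := by positivity
  have hη1 : H / R ≤ 1 := (div_le_one hR0).2 hRH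
  -- continuity
  have hGc : Continuous G := by
    have : LipschitzWith (CG * R).toNNReal G := by
      refine LipschitzWith.of_dist_le_mul fun x y => ?_
      rw [dist_eq_norm, dist_eq_norm, Real.coe_toNNReal _ (by positivity)]
      exact hGl x y
    exact this.continuous
  have hgc : Continuous g := by
    have : LipschitzWith (Cg * R).toNNReal g := by
      refine LipschitzWith.of_dist_le_mul fun x y => ?_
      rw [dist_eq_norm, dist_eq_norm, Real.coe_toNNReal _ (by positivity)]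
      exact hgl x y
    exact this.continuous
  have key := ll_est hL0 hL α β γ hGc hgc hh hhb hR0.le hGb hGl hgb hgl hr hr2 hε0.le hn hη hη1
    (fun j hj => hsm r hr hr1 j hj) ρ hρ1 hρ2
  rw [← hD] at key
  set Z := ∫ y in closedBall (0 : ℂ) D, avgA α n (H / R) r G y with hZ
  have hS1 : Real.sqrt (ar D * Z) = Real.sqrt (ar D) * Real.sqrt Z :=
    Real.sqrt_mul hAD.le _
  have hS2 : Real.sqrt (ar (D + ‖α - β‖) * (ε * (CG ^ 4 * ar (1 + ‖γ - α‖)))) =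
      Real.sqrt ε * Real.sqrt A := by
    rw [← Real.sqrt_mul hε0.le, hA]
    congr 1
    ring
  rw [hS1, hS2] at key
  refine key.trans (le_of_eq_of_le (b := ar ρ * (2 * π) * (2 * π) * Real.sqrt (ar D) * Ch ^ 2 *
    Cg ^ 2 * Real.sqrt Z + (X1 / n + X2 * Real.sqrt ε + X3 * r + X4 / R)) ?_ ?_)
  · unfold lerr
    rw [hX1, hX2, hX3, hX4, hP]
    field_simp
    ring
  · linarith

end Pool.Agent.H24.Tri
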