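import Pool.Agent.H98.Tri.SM
import Pool.Agent.H24.Tri.ToolA
import Pool.Agent.H24.Tri.LW
import Pool.Agent.H24.Tri.DefsLoc

/-!
# Project TRI, light lemma LL, part A: averaging over small rotations
-/

set_option autoImplicit false

open MeasureTheory Set Complex Metric Filter Topology
open scoped Real ENNReal NNReal FourierTransform ComplexConjugate

namespace Pool.Agent.H24.Tri

/-- bounded continuous functions are integrable on finite measures -/
theorem ll_int {X E : Type*} [TopologicalSpace X] [MeasurableSpace X] [OpensMeasurableSpace X]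
    [SecondCountableTopology X] [NormedAddCommGroup E]
    (μ : Measure X) [IsFiniteMeasure μ] {f : X → E} (hf : Continuous f) (C : ℝ)
    (hC : ∀ x, ‖f x‖ ≤ C) : Integrable f μ :=
  Integrable.of_bound hf.aestronglyMeasurable C (Eventually.of_forall hC)

/-- Cauchy-Schwarz on a finite measure space -/
theorem ll_cs {X : Type*} [MeasurableSpace X] (μ : Measure X) [IsFiniteMeasure μ] {f : X → ℝ}
    (hf : Integrable f μ) (hf2 : Integrable (fun x => f x ^ 2) μ) :
    (∫ x, f x ∂μ) ^ 2 ≤ μ.real univ * ∫ x, f x ^ 2 ∂μ := by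
  set m := μ.real univ with hm
  set I := ∫ x, f x ∂μ with hI
  set S := ∫ x, f x ^ 2 ∂μ with hS
  have hm0 : 0 ≤ m := measureReal_nonneg
  have key : ∀ t : ℝ, 0 ≤ S - 2 * t * I + t ^ 2 * m := by
    intro t
    have h1 : 0 ≤ ∫ x, (f x - t) ^ 2 ∂μ := integral_nonneg fun x => sq_nonneg _
    have h2 : ∫ x, (f x - t) ^ 2 ∂μ = S - 2 * t * I + t ^ 2 * m := by
      have h3 : ∀ x, (f x - t) ^ 2 = f x ^ 2 - 2 * t * f x + t ^ 2 := fun x => by ring
      simp_rw [h3]
      rw [integral_add (f := fun x => f x ^ 2 - 2 * t * f x) (hf2.sub (hf.const_mul _))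
        (integrable_const _), integral_sub hf2 (hf.const_mul _), integral_const_mul, integral_const,
        smul_eq_mul]
      ring
    rw [h2] at h1
    exact h1
  rcases hm0.eq_or_lt with h0 | h0
  · have h1 : μ = 0 := by
      rw [hm, measureReal_def] at h0
      have h2 := (ENNReal.toReal_eq_zero_iff _).1 h0.symm
      rcases h2 with h2 | h2
      · exact Measure.measure_univ_eq_zero.1 h2
      · exact absurd h2 (measure_ne_top _ _)
    have h3 : I = 0 := by rw [hI, h1, integral_zero_measure]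
    rw [h3, ← h0]
    norm_num
  · have h1 := key (I / m)
    have h2 : S - 2 * (I / m) * I + (I / m) ^ 2 * m = S - I ^ 2 / m := by
      field_simp
      ring
    rw [h2, sub_nonneg, div_le_iff₀ h0] at h1
    linarith

theorem ll_per (g : ℝ → ℂ) (hg : ∀ θ, g (θ + 2 * π) = g θ) (h : ℝ) :
    ∫ θ in Ioc 0 (2 * π), g (θ + h) = ∫ θ in Ioc 0 (2 * π), g θ := by
  rw [← intervalIntegral.integral_of_le Real.two_pi_pos.le,
    ← intervalIntegral.integral_of_le Real.two_pi_pos.le,
    intervalIntegral.integral_comp_add_right (fun θ => g θ) h]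
  have h1 : Function.Periodic g (2 * π) := hg
  have h2 := h1.intervalIntegral_add_eq (0 + h) 0
  rw [zero_add] at h2
  rw [zero_add, add_comm (2 * π) h, h2, zero_add]

/-- van der Corput type inequality: averaging over small rotations -/
theorem ll_vdc (F : ℂ → ℝ → ℂ) (hF : Continuous (Function.uncurry F)) (C : ℝ)
    (hC : ∀ z θ, ‖F z θ‖ ≤ C) (hper : ∀ z θ, F z (θ + 2 * π) = F z θ) (ν : Measure ℂ)
    [IsFiniteMeasure ν] (η : ℝ) (hη : 0 < η) :
    ∫ z, ‖∫ θ in Ioc 0 (2 * π), F z θ‖ ^ 2 ∂ν ≤ 2 * π * ((η ^ 2)⁻¹ *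
      ∫ h in Ioc 0 η, ∫ h' in Ioc 0 η,
        ‖∫ θ in Ioc 0 (2 * π), ∫ z, F z θ * conj (F z (θ + (h - h'))) ∂ν‖) := by
  have hC0 : 0 ≤ C := (norm_nonneg _).trans (hC 0 0)
  have hpi := Real.pi_pos
  set μθ : Measure ℝ := volume.restrict (Ioc 0 (2 * π)) with hμθ
  set μh : Measure ℝ := volume.restrict (Ioc 0 η) with hμh
  have hFc : ∀ z, Continuous (F z) := fun z => hF.comp (Continuous.prodMk_right z)
  have hmass : μh.real univ = η := by
    rw [hμh, measureReal_restrict_apply MeasurableSet.univ, univ_inter,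
      Real.volume_real_Ioc_of_le hη.le, sub_zero]
  have hmassθ : μθ.real univ = 2 * π := by
    rw [hμθ, measureReal_restrict_apply MeasurableSet.univ, univ_inter,
      Real.volume_real_Ioc_of_le (by positivity), sub_zero]
  -- the average
  set m : ℂ → ℝ → ℂ := fun z θ => (η : ℂ)⁻¹ * ∫ h, F z (θ + h) ∂μh with hm
  have hbig : Continuous fun p : (ℂ × ℝ) × ℝ => F p.1.1 (p.1.2 + p.2) := by
    have : Continuous fun p : (ℂ × ℝ) × ℝ => (p.1.1, p.1.2 + p.2) := by fun_prop
    exact hF.comp this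
  have hmC : Continuous (Function.uncurry m) := by
    refine continuous_const.mul ?_
    refine continuous_of_dominated (F := fun (p : ℂ × ℝ) h => F p.1 (p.2 + h)) (bound := fun _ => C)
      (fun p => ?_) (fun p => Eventually.of_forall fun h => hC _ _) (integrable_const _)
      (Eventually.of_forall fun h => ?_)
    · exact ((hFc p.1).comp (continuous_const.add continuous_id)).aestronglyMeasurable
    · exact hbig.comp (Continuous.prodMk_left h)
  have hmb : ∀ z θ, ‖m z θ‖ ≤ C := by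
    intro z θ
    rw [hm]
    simp only
    rw [norm_mul, norm_inv, Complex.norm_real, Real.norm_of_nonneg hη.le]
    have h1 : ‖∫ h, F z (θ + h) ∂μh‖ ≤ C * μh.real univ :=
      norm_integral_le_of_norm_le_const (Eventually.of_forall fun h => hC _ _)
    rw [hmass] at h1
    calc η⁻¹ * ‖∫ h, F z (θ + h) ∂μh‖ ≤ η⁻¹ * (C * η) :=
          mul_le_mul_of_nonneg_left h1 (by positivity)
      _ = C := by field_simp
  have h1 : ∀ z, ∫ θ, F z θ ∂μθ = ∫ θ, m z θ ∂μθ := by
    intro z
    have h2 : ∫ θ, m z θ ∂μθ = (η : ℂ)⁻¹ * ∫ θ, ∫ h, F z (θ + h) ∂μh ∂μθ := by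
      rw [← integral_const_mul]
    rw [h2, integral_integral_swap (f := fun θ h => F z (θ + h))]
    · have h3 : ∀ h : ℝ, ∫ θ, F z (θ + h) ∂μθ = ∫ θ, F z θ ∂μθ := fun h =>
        ll_per (F z) (hper z) h
      simp_rw [h3]
      rw [integral_const, hmass, Complex.real_smul, ← mul_assoc,
        inv_mul_cancel₀ (by exact_mod_cast hη.ne'), one_mul]
    · refine ll_int _ ?_ C fun p => hC _ _
      exact (hFc z).comp (continuous_fst.add continuous_snd)
  have h2 : ∀ z, ‖∫ θ, F z θ ∂μθ‖ ^ 2 ≤ 2 * π * ∫ θ, ‖m z θ‖ ^ 2 ∂μθ := by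
    intro z
    rw [h1 z]
    have hc : Continuous (m z) := hmC.comp (Continuous.prodMk_right z)
    have h3 : ‖∫ θ, m z θ ∂μθ‖ ≤ ∫ θ, ‖m z θ‖ ∂μθ := norm_integral_le_integral_norm _
    have h4 := ll_cs μθ (f := fun θ => ‖m z θ‖)
      (ll_int _ hc.norm C fun θ => by rw [norm_norm]; exact hmb z θ)
      (ll_int _ (hc.norm.pow 2) (C ^ 2) fun θ => by
        rw [norm_pow, norm_norm]
        exact pow_le_pow_left₀ (norm_nonneg _) (hmb z θ) 2)
    rw [hmassθ] at h4
    exact (pow_le_pow_left₀ (norm_nonneg _) h3 2).trans h4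
  -- the double average
  set K : (ℂ × ℝ) → (ℝ × ℝ) → ℂ := fun p q => F p.1 (p.2 + q.2) * conj (F p.1 (p.2 + q.1)) with hK
  have hKc : Continuous (Function.uncurry K) := by
    refine Continuous.mul ?_ (Complex.continuous_conj.comp ?_)
    · have : Continuous fun p : (ℂ × ℝ) × (ℝ × ℝ) => (p.1.1, p.1.2 + p.2.2) := by fun_prop
      exact hF.comp this
    · have : Continuous fun p : (ℂ × ℝ) × (ℝ × ℝ) => (p.1.1, p.1.2 + p.2.1) := by fun_prop
      exact hF.comp this
  have hKb : ∀ p q, ‖K p q‖ ≤ C * C := by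
    intro p q
    rw [hK]
    simp only
    rw [norm_mul, RCLike.norm_conj]
    exact mul_le_mul (hC _ _) (hC _ _) (norm_nonneg _) hC0
  have hKi : Integrable (Function.uncurry K) ((ν.prod μθ).prod (μh.prod μh)) :=
    ll_int _ hKc (C * C) fun p => hKb _ _
  have h3 : ∀ p : ℂ × ℝ, ((‖m p.1 p.2‖ ^ 2 : ℝ) : ℂ) =
      ((η : ℂ) ^ 2)⁻¹ * ∫ q, K p q ∂(μh.prod μh) := by
    intro p
    have h4 : ((‖m p.1 p.2‖ ^ 2 : ℝ) : ℂ) = m p.1 p.2 * conj (m p.1 p.2) := by
      rw [Complex.mul_conj, Complex.normSq_eq_norm_sq]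
    have h5 : ∫ q, K p q ∂(μh.prod μh) =
        (∫ h, conj (F p.1 (p.2 + h)) ∂μh) * ∫ h, F p.1 (p.2 + h) ∂μh := by
      rw [← integral_prod_mul (μ := μh) (ν := μh) (fun h => conj (F p.1 (p.2 + h)))
        (fun h => F p.1 (p.2 + h))]
      congr 1
      funext q
      rw [hK]
      simp only
      ring
    rw [h4, h5, hm]
    simp only
    rw [map_mul, map_inv₀, Complex.conj_ofReal, ← integral_conj]
    ring
  -- the integral over `z`, `θ`
  have hmP : Integrable (fun p : ℂ × ℝ => ‖m p.1 p.2‖ ^ 2) (ν.prod μθ) := by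
    refine ll_int _ (hmC.norm.pow 2) (C ^ 2) fun p => ?_
    rw [norm_pow, norm_norm]
    exact pow_le_pow_left₀ (norm_nonneg _) (hmb _ _) 2
  have h6 : ∫ z, ‖∫ θ, F z θ ∂μθ‖ ^ 2 ∂ν ≤ 2 * π * ∫ p, ‖m p.1 p.2‖ ^ 2 ∂(ν.prod μθ) := by
    rw [integral_prod _ hmP, ← integral_const_mul]
    have hTc : Continuous fun z => ∫ θ, F z θ ∂μθ := by
      refine continuous_of_dominated (bound := fun _ => C) (fun z => (hFc z).aestronglyMeasurable)
        (fun z => Eventually.of_forall fun θ => hC _ _) (integrable_const _)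
        (Eventually.of_forall fun θ => hF.comp (Continuous.prodMk_left θ))
    refine integral_mono ?_ ?_ h2
    · refine ll_int _ (hTc.norm.pow 2) ((C * (2 * π)) ^ 2) fun z => ?_
      rw [norm_pow, norm_norm]
      refine pow_le_pow_left₀ (norm_nonneg _) ?_ 2
      have h7 : ‖∫ θ, F z θ ∂μθ‖ ≤ C * μθ.real univ :=
        norm_integral_le_of_norm_le_const (Eventually.of_forall fun h => hC _ _)
      rwa [hmassθ] at h7
    · exact (hmP.integral_prod_left).const_mul (2 * π)
  refine h6.trans (mul_le_mul_of_nonneg_left ?_ (by positivity))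
  have h7 : ((∫ p, ‖m p.1 p.2‖ ^ 2 ∂(ν.prod μθ) : ℝ) : ℂ) =
      ((η : ℂ) ^ 2)⁻¹ * ∫ q, ∫ p, K p q ∂(ν.prod μθ) ∂(μh.prod μh) := by
    rw [← integral_complex_ofReal, ← integral_integral_swap hKi, ← integral_const_mul]
    congr 1
    funext p
    exact h3 p
  have h8 : ∀ q : ℝ × ℝ, ∫ p, K p q ∂(ν.prod μθ) =
      ∫ θ, ∫ z, F z θ * conj (F z (θ + (q.1 - q.2))) ∂ν ∂μθ := by
    intro q
    have hKq : Continuous fun p : ℂ × ℝ => K p q := hKc.comp (Continuous.prodMk_left q)
    rw [integral_prod _ (ll_int _ hKq (C * C) fun p => hKb _ _)]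
    have h9 : ∀ z : ℂ, ∫ θ, K (z, θ) q ∂μθ =
        ∫ θ, F z θ * conj (F z (θ + (q.1 - q.2))) ∂μθ := by
      intro z
      have h10 := ll_per (fun θ => F z θ * conj (F z (θ + (q.1 - q.2)))) (fun θ => by
        have e1 : θ + 2 * π + (q.1 - q.2) = θ + (q.1 - q.2) + 2 * π := by ring
        rw [hper, e1, hper]) q.2
      rw [hμθ, ← h10]
      congr 1
      funext θ
      rw [hK]
      simp only
      rw [show θ + q.2 + (q.1 - q.2) = θ + q.1 by ring]
    simp_rw [h9]
    rw [integral_integral_swap]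
    have hc : Continuous (Function.uncurry fun (z : ℂ) (θ : ℝ) =>
        F z θ * conj (F z (θ + (q.1 - q.2)))) := by
      refine Continuous.mul hF (Complex.continuous_conj.comp ?_)
      have : Continuous fun p : ℂ × ℝ => (p.1, p.2 + (q.1 - q.2)) := by fun_prop
      exact hF.comp this
    refine ll_int _ hc (C * C) fun p => ?_
    simp only [Function.uncurry]
    rw [norm_mul, RCLike.norm_conj]
    exact mul_le_mul (hC _ _) (hC _ _) (norm_nonneg _) hC0
  have h11 : ∫ p, ‖m p.1 p.2‖ ^ 2 ∂(ν.prod μθ) =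
      ‖((∫ p, ‖m p.1 p.2‖ ^ 2 ∂(ν.prod μθ) : ℝ) : ℂ)‖ := by
    rw [Complex.norm_real, Real.norm_of_nonneg]
    exact integral_nonneg fun p => by positivity
  rw [h11, h7, norm_mul, norm_inv, norm_pow, Complex.norm_real, Real.norm_of_nonneg hη.le]
  refine mul_le_mul_of_nonneg_left ?_ (by positivity)
  refine (norm_integral_le_integral_norm _).trans ?_
  have h12 : Integrable (fun q : ℝ × ℝ => ‖∫ p, K p q ∂(ν.prod μθ)‖) (μh.prod μh) :=
    hKi.integral_prod_right.norm
  rw [integral_prod _ h12]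
  simp_rw [h8]
  exact le_refl _

end Pool.Agent.H24.Tri
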