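import Pool.Agent.H26.Tri.LLA

/-!
# Project TRI, light lemma LL, part B: one arc
-/

set_option autoImplicit false

open MeasureTheory Set Complex Metric Filter Topology
open scoped Real ENNReal NNReal FourierTransform ComplexConjugate

namespace Pool.Agent.H24.Tri

theorem ll_psi0_lip : ∃ L : ℝ, 0 ≤ L ∧ ∀ x y : ℂ, |psi0 x - psi0 y| ≤ L * ‖x - y‖ := by
  obtain ⟨L, hL⟩ := psi0_smooth.lipschitzWith_of_hasCompactSupport psi0_compact (by simp)
  refine ⟨L, L.2, fun x y => ?_⟩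
  have h1 := hL.dist_le_mul x y
  rwa [Real.dist_eq, dist_eq_norm] at h1

theorem ll_psi0_sq_lip {L : ℝ} (hL : ∀ x y : ℂ, |psi0 x - psi0 y| ≤ L * ‖x - y‖) (x y : ℂ) :
    |psi0 x ^ 2 - psi0 y ^ 2| ≤ 2 * L * ‖x - y‖ := by
  have h1 : psi0 x ^ 2 - psi0 y ^ 2 = (psi0 x + psi0 y) * (psi0 x - psi0 y) := by ring
  rw [h1, abs_mul]
  have h2 : |psi0 x + psi0 y| ≤ 2 := by
    rw [abs_of_nonneg (add_nonneg (psi0_nonneg _) (psi0_nonneg _))]
    linarith [psi0_le_one x, psi0_le_one y]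
  calc |psi0 x + psi0 y| * |psi0 x - psi0 y| ≤ 2 * (L * ‖x - y‖) :=
        mul_le_mul h2 (hL x y) (abs_nonneg _) (by norm_num)
    _ = 2 * L * ‖x - y‖ := by ring

/-- the area of the closed disc -/
noncomputable def ar (ρ : ℝ) : ℝ := volume.real (closedBall (0 : ℂ) ρ)

theorem ar_nonneg (ρ : ℝ) : 0 ≤ ar ρ := measureReal_nonneg

theorem ar_pos {ρ : ℝ} (h : 0 < ρ) : 0 < ar ρ := by
  unfold ar
  rw [measureReal_def]
  exact ENNReal.toReal_pos (measure_closedBall_pos _ _ h).ne' measure_closedBall_lt_top.ne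

theorem ar_mono {ρ ρ' : ℝ} (h : ρ ≤ ρ') : ar ρ ≤ ar ρ' :=
  measureReal_mono (closedBall_subset_closedBall h) measure_closedBall_lt_top.ne

/-- restriction of the integral to a ball containing the support -/
theorem ll_restrict {E : Type*} [NormedAddCommGroup E] [NormedSpace ℝ E] (f : ℂ → E) (ρ : ℝ)
    (hf : ∀ x, ρ < ‖x‖ → f x = 0) : ∫ x in closedBall (0 : ℂ) ρ, f x = ∫ x, f x := by
  refine setIntegral_eq_integral_of_forall_compl_eq_zero fun x hx => hf x ?_
  rwa [mem_closedBall_zero_iff, not_le] at hx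

theorem ll_integrable {f : ℂ → ℂ} (hf : Measurable f) (C : ℝ) (hC : ∀ x, ‖f x‖ ≤ C) (ρ : ℝ)
    (hρ : ∀ x, ρ < ‖x‖ → f x = 0) : Integrable f := by
  have h1 : IntegrableOn f (closedBall (0 : ℂ) ρ) :=
    Measure.integrableOn_of_bounded (M := C) (measure_closedBall_lt_top.ne) hf.aestronglyMeasurable
      (Eventually.of_forall fun x => hC x)
  refine (integrableOn_iff_integrable_of_support_subset ?_).1 h1
  intro x hx
  by_contra h
  apply hx
  rw [mem_closedBall_zero_iff, not_le] at h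
  exact hρ x h

/-- `L¹` bound on a ball by Cauchy-Schwarz -/
theorem ll_ball_cs {f : ℂ → ℂ} (hf : Measurable f) (C : ℝ) (hC : ∀ x, ‖f x‖ ≤ C) (ρ : ℝ) :
    ∫ x in closedBall (0 : ℂ) ρ, ‖f x‖ ≤
      Real.sqrt (ar ρ * ∫ x in closedBall (0 : ℂ) ρ, ‖f x‖ ^ 2) := by
  have : IsFiniteMeasure (volume.restrict (closedBall (0 : ℂ) ρ)) :=
    isFiniteMeasure_restrict.2 measure_closedBall_lt_top.ne
  have h1 := ll_cs (volume.restrict (closedBall (0 : ℂ) ρ)) (f := fun x => ‖f x‖)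
    (Integrable.of_bound hf.norm.aestronglyMeasurable C
      (Eventually.of_forall fun x => by rw [norm_norm]; exact hC x))
    (Integrable.of_bound (hf.norm.pow_const 2).aestronglyMeasurable (C ^ 2)
      (Eventually.of_forall fun x => by
        rw [norm_pow, norm_norm]
        exact pow_le_pow_left₀ (norm_nonneg _) (hC x) 2))
  rw [measureReal_restrict_apply MeasurableSet.univ, univ_inter] at h1
  exact Real.le_sqrt_of_sq_le h1

theorem ll_norm_sq_lint {f : ℂ → ℂ} (hf : Measurable f) :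
    ∫ x, ‖f x‖ ^ 2 = (∫⁻ x, ‖f x‖ₑ ^ 2).toReal := by
  rw [integral_eq_lintegral_of_nonneg_ae (Eventually.of_forall fun x => sq_nonneg _)
    (hf.norm.pow_const 2).aestronglyMeasurable]
  congr 2
  funext x
  rw [ENNReal.ofReal_pow (norm_nonneg _), ofReal_norm]

/-- the duality between `circConv` and the bilinear integral -/
theorem ll_dual (α β : ℂ) (b : ℝ → ℝ) (hb : Measurable b) (M : ℝ) (hbM : ∀ θ, |b θ| ≤ M)
    (f q : ℂ → ℂ) (hf : Measurable f) (hfi : Integrable f) (hq : Measurable q) (Q : ℝ)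
    (hQ : ∀ x, ‖q x‖ ≤ Q) :
    ∫ θ in Ioc 0 (2 * π), (b θ : ℂ) * ∫ z, f (z + α * cis θ) * q (z + β * cis θ) =
      ∫ x, q x * circConv b (α - β) f x := by
  have h1 : ∀ θ : ℝ, (b θ : ℂ) * ∫ z, f (z + α * cis θ) * q (z + β * cis θ) =
      ∫ x, q x * ((b θ : ℂ) * f (x + (α - β) * cis θ)) := by
    intro θ
    rw [← integral_add_right_eq_self (fun x => q x * ((b θ : ℂ) * f (x + (α - β) * cis θ)))
      (β * cis θ), ← integral_const_mul]
    congr 1
    funext z
    rw [show z + β * cis θ + (α - β) * cis θ = z + α * cis θ by ring]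
    ring
  simp_rw [h1]
  rw [integral_integral_swap]
  · congr 1
    funext x
    rw [integral_const_mul]
    rfl
  · have h2 := circ_integrable_prod b hb M hbM (α - β) f hf hfi
    have h3 : Integrable (fun p : ℂ × ℝ => q p.1 * ((b p.2 : ℂ) * f (p.1 + (α - β) * cis p.2)))
        ((volume : Measure ℂ).prod (volume.restrict (Ioc 0 (2 * π)))) := by
      refine h2.bdd_mul (c := Q) ?_ (Eventually.of_forall fun p => hQ _)
      exact (hq.comp measurable_fst).aestronglyMeasurable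
    exact h3.swap

/-- `L¹` bound for `circConv` -/
theorem ll_circ_l1 (c : ℂ) (b : ℝ → ℝ) (hb : Measurable b) (M : ℝ) (hbM : ∀ θ, |b θ| ≤ M)
    (hb0 : ∀ θ, 0 ≤ b θ) (m : ℂ → ℂ) (hm : Measurable m) (hmi : Integrable m) :
    ∫ x, ‖circConv b c m x‖ ≤ (∫ θ in Ioc 0 (2 * π), b θ) * ∫ x, ‖m x‖ := by
  have h2 := circ_integrable_prod b hb M hbM c m hm hmi
  have h3 : ∫ x, ‖circConv b c m x‖ ≤ ∫ x, ∫ θ in Ioc 0 (2 * π), ‖(b θ : ℂ) * m (x + c * cis θ)‖ := by
    refine integral_mono (circConv_integrable b hb M hbM c m hm hmi).norm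
      h2.norm.integral_prod_left fun x => norm_integral_le_integral_norm _
  refine h3.trans (le_of_eq ?_)
  rw [integral_integral_swap (f := fun x θ => ‖(b θ : ℂ) * m (x + c * cis θ)‖) h2.norm,
    ← integral_mul_const]
  congr 1
  funext θ
  simp_rw [norm_mul, Complex.norm_real, Real.norm_of_nonneg (hb0 θ)]
  rw [integral_const_mul, integral_add_right_eq_self (fun x => ‖m x‖)]

/-- `psi²` -/
noncomputable def psiSq (x : ℂ) : ℝ := psi x ^ 2

theorem psiSq_continuous : Continuous psiSq := psi_smooth.continuous.pow 2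

theorem psiSq_nonneg (x : ℂ) : 0 ≤ psiSq x := sq_nonneg _

theorem psiSq_even (x : ℂ) : psiSq (-x) = psiSq x := by rw [psiSq, psiSq, psi_even]

theorem psiSq_zero (x : ℂ) (h : 1 ≤ ‖x‖) : psiSq x = 0 := by
  rw [psiSq, psi_zero x h]
  norm_num

theorem psiSq_integral : ∫ x, psiSq x = 1 := psi_sq_integral

theorem ll_moll_eq (r : ℝ) (f : ℂ → ℂ) (y : ℂ) :
    moll psiSq r f y = ∫ x, ((psr r (x - y) ^ 2 : ℝ) : ℂ) * f x := by
  unfold moll
  have h1 : ∀ s : ℂ, (((r ^ 2)⁻¹ * psiSq (s / (r : ℂ)) : ℝ) : ℂ) * f (y - s) =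
      (fun x => ((psr r (x - y) ^ 2 : ℝ) : ℂ) * f x) (y - s) := by
    intro s
    simp only
    rw [show y - s - y = -s by ring, psr_even, psr, psiSq, mul_pow, inv_pow]
  simp_rw [h1]
  exact integral_sub_left_eq_self (fun x => ((psr r (x - y) ^ 2 : ℝ) : ℂ) * f x) volume y

/-- the local weight times the autocorrelation integrand -/
noncomputable def ff (s v : ℂ) (G : ℂ → ℂ) (y : ℂ) : ℂ :=
  ((psi0 (y + s) ^ 2 : ℝ) : ℂ) * (G y * conj (G (y + v)))

theorem ff_continuous (s v : ℂ) {G : ℂ → ℂ} (hG : Continuous G) : Continuous (ff s v G) := by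
  unfold ff
  have h1 : Continuous fun y : ℂ => psi0 (y + s) := psi0_smooth.continuous.comp (by fun_prop)
  have h2 : Continuous fun y : ℂ => conj (G (y + v)) :=
    Complex.continuous_conj.comp (hG.comp (by fun_prop))
  exact (Complex.continuous_ofReal.comp (h1.pow 2)).mul (hG.mul h2)

theorem gg_bound {G : ℂ → ℂ} {CG : ℝ} (hC : ∀ x, ‖G x‖ ≤ CG) (x y : ℂ) :
    ‖G x * conj (G y)‖ ≤ CG ^ 2 := by
  rw [norm_mul, RCLike.norm_conj, sq]
  exact mul_le_mul (hC _) (hC _) (norm_nonneg _) ((norm_nonneg _).trans (hC 0))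

theorem ff_bound (s v : ℂ) {G : ℂ → ℂ} {CG : ℝ} (hC : ∀ x, ‖G x‖ ≤ CG) (y : ℂ) :
    ‖ff s v G y‖ ≤ CG ^ 2 := by
  unfold ff
  rw [norm_mul, Complex.norm_real, Real.norm_of_nonneg (sq_nonneg _)]
  have h1 : psi0 (y + s) ^ 2 ≤ 1 := pow_le_one₀ (psi0_nonneg _) (psi0_le_one _)
  calc psi0 (y + s) ^ 2 * ‖G y * conj (G (y + v))‖ ≤ 1 * CG ^ 2 :=
        mul_le_mul h1 (gg_bound hC _ _) (norm_nonneg _) (by norm_num)
    _ = CG ^ 2 := one_mul _

theorem ff_zero (s v : ℂ) (G : ℂ → ℂ) (y : ℂ) (h : 1 + ‖s‖ < ‖y‖) : ff s v G y = 0 := by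
  unfold ff
  have h1 : 1 ≤ ‖y + s‖ := by
    have h2 : ‖y‖ ≤ ‖y + s‖ + ‖s‖ := by
      calc ‖y‖ = ‖(y + s) - s‖ := by ring_nf
        _ ≤ ‖y + s‖ + ‖s‖ := norm_sub_le _ _
    linarith
  rw [psi0_zero _ h1]
  norm_num

theorem psr_sq_integrable {r : ℝ} (hr : 0 < r) (y : ℂ) :
    Integrable fun x : ℂ => psr r (x - y) ^ 2 := by
  have h1 : Integrable fun x : ℂ => psr r x ^ 2 :=
    ((psr_smooth r).continuous.pow 2).integrable_of_hasCompactSupport
      (by
        have h2 := (psr_compact hr).mul_right (f' := psr r)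
        simpa [sq] using h2)
  exact h1.comp_sub_right y

theorem ll_acorr_bound {r : ℝ} (hr : 0 < r) {G : ℂ → ℂ} {CG : ℝ}
    (hC : ∀ x, ‖G x‖ ≤ CG) (y v : ℂ) : ‖acorr r G y v‖ ≤ CG ^ 2 := by
  unfold acorr
  have h1 : ‖∫ x, ((psr r (x - y) ^ 2 : ℝ) : ℂ) * G x * conj (G (x + v))‖ ≤
      ∫ x, psr r (x - y) ^ 2 * CG ^ 2 := by
    refine norm_integral_le_of_norm_le ((psr_sq_integrable hr y).mul_const _)
      (Eventually.of_forall fun x => ?_)
    rw [mul_assoc, norm_mul, Complex.norm_real, Real.norm_of_nonneg (sq_nonneg _)]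
    exact mul_le_mul_of_nonneg_left (gg_bound hC _ _) (sq_nonneg _)
  rwa [integral_mul_const, integral_sub_right_eq_self (fun x : ℂ => psr r x ^ 2),
    psr_sq_integral hr, one_mul] at h1

/-- joint continuity of the local autocorrelation -/
theorem ll_acorr_continuous {r : ℝ} (hr : 0 < r) {G : ℂ → ℂ} (hG : Continuous G) {CG : ℝ}
    (hC : ∀ x, ‖G x‖ ≤ CG) : Continuous fun p : ℂ × ℂ => acorr r G p.1 p.2 := by
  have h0 : ∀ p : ℂ × ℂ, acorr r G p.1 p.2 =
      ∫ x, ((psr r x ^ 2 : ℝ) : ℂ) * (G (x + p.1) * conj (G (x + p.1 + p.2))) := by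
    intro p
    unfold acorr
    rw [← integral_add_right_eq_self (fun x => ((psr r (x - p.1) ^ 2 : ℝ) : ℂ) * G x *
      conj (G (x + p.2))) p.1]
    congr 1
    funext x
    rw [add_sub_cancel_right, mul_assoc]
  simp_rw [h0]
  have h1 := psr_sq_integrable hr 0
  simp only [sub_zero] at h1
  have hps : Continuous fun x : ℂ => ((psr r x ^ 2 : ℝ) : ℂ) :=
    Complex.continuous_ofReal.comp ((psr_smooth r).continuous.pow 2)
  refine continuous_of_dominated (bound := fun x => psr r x ^ 2 * CG ^ 2) (fun p => ?_)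
    (fun p => Eventually.of_forall fun x => ?_) (h1.mul_const _)
    (Eventually.of_forall fun x => ?_)
  · have h2 : Continuous fun x : ℂ => G (x + p.1) := hG.comp (by fun_prop)
    have h3 : Continuous fun x : ℂ => conj (G (x + p.1 + p.2)) :=
      Complex.continuous_conj.comp (hG.comp (by fun_prop))
    exact (hps.mul (h2.mul h3)).aestronglyMeasurable
  · rw [norm_mul, Complex.norm_real, Real.norm_of_nonneg (sq_nonneg _)]
    exact mul_le_mul_of_nonneg_left (gg_bound hC _ _) (sq_nonneg _)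
  · have h2 : Continuous fun p : ℂ × ℂ => G (x + p.1) := hG.comp (by fun_prop)
    have h3 : Continuous fun p : ℂ × ℂ => conj (G (x + p.1 + p.2)) :=
      Complex.continuous_conj.comp (hG.comp (by fun_prop))
    exact continuous_const.mul (h2.mul h3)

theorem ll_acorr_cont_left {r : ℝ} (hr : 0 < r) {G : ℂ → ℂ} (hG : Continuous G) {CG : ℝ}
    (hC : ∀ x, ‖G x‖ ≤ CG) (v : ℂ) : Continuous fun y => acorr r G y v := by
  have h1 := ll_acorr_continuous hr hG hC
  have h2 : Continuous fun y : ℂ => (y, v) := by fun_prop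
  have h3 := h1.comp h2
  exact h3

/-- the mollified weighted product is close to the autocorrelation -/
theorem ll_moll_acorr {L : ℝ} (hL0 : 0 ≤ L) (hL : ∀ x y : ℂ, |psi0 x - psi0 y| ≤ L * ‖x - y‖)
    {r : ℝ} (hr : 0 < r) (s v : ℂ) {G : ℂ → ℂ} (hG : Continuous G) {CG : ℝ}
    (hC : ∀ x, ‖G x‖ ≤ CG) (y : ℂ) :
    ‖moll psiSq r (ff s v G) y‖ ≤ ‖acorr r G y v‖ + 2 * L * r * CG ^ 2 := by
  rw [ll_moll_eq]
  have hps : Continuous fun x : ℂ => ((psr r (x - y) ^ 2 : ℝ) : ℂ) :=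
    Complex.continuous_ofReal.comp (((psr_smooth r).continuous.comp (by fun_prop)).pow 2)
  have hGG : Continuous fun x : ℂ => G x * conj (G (x + v)) :=
    hG.mul (Complex.continuous_conj.comp (hG.comp (by fun_prop)))
  have hi1 : Integrable fun x : ℂ => ((psr r (x - y) ^ 2 : ℝ) : ℂ) * ff s v G x := by
    refine ((psr_sq_integrable hr y).mul_const (CG ^ 2)).mono'
      (hps.mul (ff_continuous s v hG)).aestronglyMeasurable (Eventually.of_forall fun x => ?_)
    rw [norm_mul, Complex.norm_real, Real.norm_of_nonneg (sq_nonneg _)]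
    exact mul_le_mul_of_nonneg_left (ff_bound s v hC x) (sq_nonneg _)
  have hi2 : Integrable fun x : ℂ => ((psr r (x - y) ^ 2 : ℝ) : ℂ) * (G x * conj (G (x + v))) := by
    refine ((psr_sq_integrable hr y).mul_const (CG ^ 2)).mono'
      (hps.mul hGG).aestronglyMeasurable (Eventually.of_forall fun x => ?_)
    rw [norm_mul, Complex.norm_real, Real.norm_of_nonneg (sq_nonneg _)]
    exact mul_le_mul_of_nonneg_left (gg_bound hC _ _) (sq_nonneg _)
  have hac : acorr r G y v = ∫ x, ((psr r (x - y) ^ 2 : ℝ) : ℂ) * (G x * conj (G (x + v))) := by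
    unfold acorr
    simp_rw [mul_assoc]
  have h1 : ∫ x, ((psr r (x - y) ^ 2 : ℝ) : ℂ) * ff s v G x =
      ((psi0 (y + s) ^ 2 : ℝ) : ℂ) * acorr r G y v +
      ∫ x, ((psr r (x - y) ^ 2 : ℝ) : ℂ) * (((psi0 (x + s) ^ 2 - psi0 (y + s) ^ 2 : ℝ) : ℂ) *
        (G x * conj (G (x + v)))) := by
    rw [hac, ← integral_const_mul, ← integral_add (hi2.const_mul _)]
    · congr 1
      funext x
      unfold ff
      push_cast
      ring
    · have h2 := hi1.sub (hi2.const_mul ((psi0 (y + s) ^ 2 : ℝ) : ℂ))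
      refine h2.congr (Eventually.of_forall fun x => ?_)
      simp only [Pi.sub_apply, ff]
      push_cast
      ring
  rw [h1]
  refine (norm_add_le _ _).trans (add_le_add ?_ ?_)
  · rw [norm_mul, Complex.norm_real, Real.norm_of_nonneg (sq_nonneg _)]
    exact mul_le_of_le_one_left (norm_nonneg _) (pow_le_one₀ (psi0_nonneg _) (psi0_le_one _))
  · have h3 : ‖∫ x, ((psr r (x - y) ^ 2 : ℝ) : ℂ) *
        (((psi0 (x + s) ^ 2 - psi0 (y + s) ^ 2 : ℝ) : ℂ) * (G x * conj (G (x + v))))‖ ≤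
        ∫ x, psr r (x - y) ^ 2 * (2 * L * r * CG ^ 2) := by
      refine norm_integral_le_of_norm_le ((psr_sq_integrable hr y).mul_const _)
        (Eventually.of_forall fun x => ?_)
      rw [norm_mul, Complex.norm_real, Real.norm_of_nonneg (sq_nonneg _)]
      rcases le_or_gt r ‖x - y‖ with hxy | hxy
      · rw [psr_zero hr _ hxy]
        norm_num
      · refine mul_le_mul_of_nonneg_left ?_ (sq_nonneg _)
        rw [norm_mul, Complex.norm_real, Real.norm_eq_abs]
        refine mul_le_mul ?_ (gg_bound hC _ _) (norm_nonneg _) (by positivity)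
        refine (ll_psi0_sq_lip hL _ _).trans ?_
        rw [add_sub_add_right_eq_sub]
        exact mul_le_mul_of_nonneg_left hxy.le (by positivity)
    rwa [integral_mul_const, integral_sub_right_eq_self (fun x : ℂ => psr r x ^ 2),
      psr_sq_integral hr, one_mul] at h3

theorem ll_moll_zero {r : ℝ} (hr : 0 < r) (hr1 : r ≤ 1) (s v : ℂ) (G : ℂ → ℂ) (y : ℂ)
    (hy : 2 + ‖s‖ < ‖y‖) : moll psiSq r (ff s v G) y = 0 := by
  rw [ll_moll_eq]
  have h1 : ∀ x : ℂ, ((psr r (x - y) ^ 2 : ℝ) : ℂ) * ff s v G x = 0 := by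
    intro x
    rcases le_or_gt r ‖x - y‖ with hxy | hxy
    · rw [psr_zero hr _ hxy]
      norm_num
    · rw [ff_zero, mul_zero]
      have h2 : ‖y‖ ≤ ‖x‖ + ‖x - y‖ := by
        calc ‖y‖ = ‖x - (x - y)‖ := by ring_nf
          _ ≤ ‖x‖ + ‖x - y‖ := norm_sub_le _ _
      linarith
  simp_rw [h1]
  exact integral_zero _ _

theorem ll_circ_zero (c : ℂ) (b : ℝ → ℝ) (f : ℂ → ℂ) (ρ : ℝ) (hf : ∀ x, ρ < ‖x‖ → f x = 0) (x : ℂ)
    (hx : ρ + ‖c‖ < ‖x‖) : circConv b c f x = 0 := by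
  unfold circConv
  have h1 : ∀ θ : ℝ, (b θ : ℂ) * f (x + c * cis θ) = 0 := by
    intro θ
    rw [hf, mul_zero]
    have h2 : ‖x‖ ≤ ‖x + c * cis θ‖ + ‖c‖ := by
      calc ‖x‖ = ‖(x + c * cis θ) - c * cis θ‖ := by ring_nf
        _ ≤ ‖x + c * cis θ‖ + ‖c * cis θ‖ := norm_sub_le _ _
        _ = ‖x + c * cis θ‖ + ‖c‖ := by rw [norm_mul, lw_norm_cis, mul_one]
    linarith
  simp_rw [h1]
  exact integral_zero _ _

/-- the contribution of one arc -/
theorem ll_arc {L : ℝ} (hL0 : 0 ≤ L) (hL : ∀ x y : ℂ, |psi0 x - psi0 y| ≤ L * ‖x - y‖)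
    (α β : ℂ) (b : ℝ → ℝ) (hb : Measurable b) (hb0 : ∀ θ, 0 ≤ b θ) (hb1 : ∀ θ, b θ ≤ 1)
    {r : ℝ} (hr : 0 < r) (hr1 : r ≤ 1) (s v : ℂ) {G q : ℂ → ℂ} (hG : Continuous G)
    (hq : Continuous q) {CG Q : ℝ} (hC : ∀ x, ‖G x‖ ≤ CG) (hQ : ∀ x, ‖q x‖ ≤ Q)
    {ε : ℝ} (hε : 0 ≤ ε)
    (hsm : ∫⁻ x, ‖circConv b (α - β) (fun y => ff s v G y - moll psiSq r (ff s v G) y) x‖ₑ ^ 2 ≤
      ENNReal.ofReal ε * ∫⁻ x, ‖ff s v G x‖ₑ ^ 2) :
    ‖∫ θ in Ioc 0 (2 * π), (b θ : ℂ) * ∫ z, ff s v G (z + α * cis θ) * q (z + β * cis θ)‖ ≤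
      Q * (Real.sqrt (ar (2 + ‖s‖ + ‖α - β‖) * (ε * (CG ^ 4 * ar (1 + ‖s‖)))) +
        (∫ θ in Ioc 0 (2 * π), b θ) * ((∫ y in closedBall (0 : ℂ) (2 + ‖s‖), ‖acorr r G y v‖) +
          2 * L * r * CG ^ 2 * ar (2 + ‖s‖))) := by
  have hQ0 : 0 ≤ Q := (norm_nonneg _).trans (hQ 0)
  have hCG0 : 0 ≤ CG := (norm_nonneg _).trans (hC 0)
  have hbM : ∀ θ, |b θ| ≤ 1 := fun θ => by
    rw [abs_of_nonneg (hb0 θ)]
    exact hb1 θ
  set f := ff s v G with hf
  set m := moll psiSq r f with hm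
  set c := α - β with hc
  have hfc : Continuous f := ff_continuous s v hG
  have hfm : Measurable f := hfc.measurable
  have hfb : ∀ x, ‖f x‖ ≤ CG ^ 2 := fun x => ff_bound s v hC x
  have hf0 : ∀ x, 1 + ‖s‖ < ‖x‖ → f x = 0 := fun x hx => ff_zero s v G x hx
  have hfi : Integrable f := ll_integrable hfm _ hfb _ hf0
  have hmm : Measurable m := moll_measurable psiSq psiSq_continuous r f hfm
  have hmi : Integrable m := moll_integrable psiSq psiSq_continuous psiSq_zero r hr f hfi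
  have hmb : ∀ x, ‖m x‖ ≤ CG ^ 2 := moll_bound psiSq psiSq_continuous psiSq_nonneg psiSq_integral
    psiSq_zero r hr f _ hfb
  have hm0 : ∀ x, 2 + ‖s‖ < ‖x‖ → m x = 0 := fun x hx => ll_moll_zero hr hr1 s v G x hx
  set d : ℂ → ℂ := fun y => f y - m y with hd
  have hdm : Measurable d := hfm.sub hmm
  have hdi : Integrable d := hfi.sub hmi
  have hdb : ∀ x, ‖d x‖ ≤ CG ^ 2 + CG ^ 2 := fun x =>
    (norm_sub_le _ _).trans (add_le_add (hfb x) (hmb x))
  have hd0 : ∀ x, 2 + ‖s‖ < ‖x‖ → d x = 0 := fun x hx => by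
    rw [hd]
    simp only
    rw [hf0 x (by linarith), hm0 x hx, sub_zero]
  rw [ll_dual α β b hb 1 hbM f q hfm hfi hq.measurable Q hQ]
  have hsplit : ∀ x, circConv b c f x = circConv b c d x + circConv b c m x := by
    intro x
    unfold circConv
    have hcis : Measurable fun θ : ℝ => x + c * cis θ :=
      (lw_measurable_cis.const_mul c).const_add x
    have hbc : Measurable fun θ : ℝ => (b θ : ℂ) := Complex.measurable_ofReal.comp hb
    have hint : ∀ (g : ℂ → ℂ) (K : ℝ), Measurable g → (∀ x, ‖g x‖ ≤ K) →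
        Integrable (fun θ : ℝ => (b θ : ℂ) * g (x + c * cis θ))
          (volume.restrict (Ioc 0 (2 * π))) := by
      intro g K hg hK
      refine Integrable.of_bound (hbc.mul (hg.comp hcis)).aestronglyMeasurable K
        (Eventually.of_forall fun θ => ?_)
      rw [norm_mul, Complex.norm_real, Real.norm_eq_abs]
      calc |b θ| * ‖g (x + c * cis θ)‖ ≤ 1 * K :=
            mul_le_mul (hbM θ) (hK _) (norm_nonneg _) (by norm_num)
        _ = K := one_mul K
    rw [← integral_add (hint d _ hdm hdb) (hint m _ hmm hmb)]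
    congr 1
    funext θ
    rw [hd]
    simp only
    ring
  have hcd := circConv_integrable b hb 1 hbM c d hdm hdi
  have hcm := circConv_integrable b hb 1 hbM c m hmm hmi
  have h1 : ‖∫ x, q x * circConv b c f x‖ ≤
      Q * ((∫ x, ‖circConv b c d x‖) + ∫ x, ‖circConv b c m x‖) := by
    rw [← integral_add hcd.norm hcm.norm, ← integral_const_mul]
    refine norm_integral_le_of_norm_le ((hcd.norm.add hcm.norm).const_mul Q)
      (Eventually.of_forall fun x => ?_)
    rw [norm_mul, hsplit x]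
    exact mul_le_mul (hQ x) (norm_add_le _ _) (norm_nonneg _) hQ0
  refine h1.trans (mul_le_mul_of_nonneg_left (add_le_add ?_ ?_) hQ0)
  · -- the smoothing error
    have hmeas : Measurable (circConv b c d) := by
      have h2 : Measurable (fun p : ℂ × ℝ => (b p.2 : ℂ) * d (p.1 + c * cis p.2)) := by
        refine (Complex.measurable_ofReal.comp (hb.comp measurable_snd)).mul (hdm.comp ?_)
        exact measurable_fst.add ((lw_measurable_cis.comp measurable_snd).const_mul c)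
      exact (h2.stronglyMeasurable.integral_prod_right
        (ν := volume.restrict (Ioc 0 (2 * π)))).measurable
    have hz : ∀ x, 2 + ‖s‖ + ‖c‖ < ‖x‖ → circConv b c d x = 0 := fun x hx =>
      ll_circ_zero c b d _ hd0 x hx
    have h3 : ∫ x, ‖circConv b c d x‖ = ∫ x in closedBall (0 : ℂ) (2 + ‖s‖ + ‖c‖),
        ‖circConv b c d x‖ :=
      (ll_restrict (fun x => ‖circConv b c d x‖) _ fun x hx => by rw [hz x hx, norm_zero]).symm
    rw [h3]
    refine (ll_ball_cs hmeas _ (circConv_bound b 1 hbM c d _ hdb) _).trans ?_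
    refine Real.sqrt_le_sqrt (mul_le_mul_of_nonneg_left ?_ (ar_nonneg _))
    have h4 : ∫ x in closedBall (0 : ℂ) (2 + ‖s‖ + ‖c‖), ‖circConv b c d x‖ ^ 2 =
        ∫ x, ‖circConv b c d x‖ ^ 2 :=
      ll_restrict (fun x => ‖circConv b c d x‖ ^ 2) _ fun x hx => by
        rw [hz x hx, norm_zero]
        norm_num
    have h5 : ∫ x, ‖f x‖ ^ 2 ≤ CG ^ 4 * ar (1 + ‖s‖) := by
      rw [← ll_restrict (fun x => ‖f x‖ ^ 2) (1 + ‖s‖) fun x hx => by
        rw [hf0 x hx, norm_zero]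
        norm_num]
      have : IsFiniteMeasure (volume.restrict (closedBall (0 : ℂ) (1 + ‖s‖))) :=
        isFiniteMeasure_restrict.2 measure_closedBall_lt_top.ne
      have h6 : ∫ x in closedBall (0 : ℂ) (1 + ‖s‖), ‖f x‖ ^ 2 ≤
          ∫ x in closedBall (0 : ℂ) (1 + ‖s‖), CG ^ 4 := by
        refine integral_mono ?_ (integrable_const _) fun x => ?_
        · refine ll_int _ (hfc.norm.pow 2) ((CG ^ 2) ^ 2) fun x => ?_
          rw [norm_pow, norm_norm]
          exact pow_le_pow_left₀ (norm_nonneg _) (hfb x) 2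
        · calc ‖f x‖ ^ 2 ≤ (CG ^ 2) ^ 2 := pow_le_pow_left₀ (norm_nonneg _) (hfb x) 2
            _ = CG ^ 4 := by ring
      refine h6.trans (le_of_eq ?_)
      rw [integral_const, measureReal_restrict_apply MeasurableSet.univ, univ_inter, smul_eq_mul,
        mul_comm]
      rfl
    have h7 : ∫ x, ‖circConv b c d x‖ ^ 2 ≤ ε * ∫ x, ‖f x‖ ^ 2 := by
      rw [ll_norm_sq_lint hmeas, ll_norm_sq_lint hfm]
      have hfin : ENNReal.ofReal ε * ∫⁻ x, ‖f x‖ₑ ^ 2 ≠ ⊤ := by
        refine ENNReal.mul_ne_top ENNReal.ofReal_ne_top ?_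
        have h8 := sm_memLp hfi _ hfb
        have h9 := h8.eLpNorm_lt_top
        rw [eLpNorm_lt_top_iff_lintegral_rpow_enorm_lt_top (by norm_num) (by norm_num)] at h9
        have h10 : ∀ x, ‖f x‖ₑ ^ (ENNReal.toReal 2) = ‖f x‖ₑ ^ 2 := by
          intro x
          rw [show ENNReal.toReal 2 = ((2 : ℕ) : ℝ) by norm_num, ENNReal.rpow_natCast]
        simp_rw [h10] at h9
        exact h9.ne
      have h11 := ENNReal.toReal_mono hfin hsm
      rwa [ENNReal.toReal_mul, ENNReal.toReal_ofReal hε] at h11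
    rw [h4]
    exact h7.trans (mul_le_mul_of_nonneg_left h5 hε)
  · -- the main term
    refine (ll_circ_l1 c b hb 1 hbM hb0 m hmm hmi).trans
      (mul_le_mul_of_nonneg_left ?_ (integral_nonneg hb0))
    have : IsFiniteMeasure (volume.restrict (closedBall (0 : ℂ) (2 + ‖s‖))) :=
      isFiniteMeasure_restrict.2 measure_closedBall_lt_top.ne
    rw [← ll_restrict (fun x => ‖m x‖) (2 + ‖s‖) fun x hx => by rw [hm0 x hx, norm_zero]]
    have hac : Continuous fun y => acorr r G y v := ll_acorr_cont_left hr hG hC v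
    have hai0 : Integrable (fun y => acorr r G y v)
        (volume.restrict (closedBall (0 : ℂ) (2 + ‖s‖))) :=
      ll_int _ hac (CG ^ 2) fun y => ll_acorr_bound hr hC y v
    have hai : Integrable (fun y => ‖acorr r G y v‖)
        (volume.restrict (closedBall (0 : ℂ) (2 + ‖s‖))) := hai0.norm
    have h2 : ∫ x in closedBall (0 : ℂ) (2 + ‖s‖), ‖m x‖ ≤
        ∫ y in closedBall (0 : ℂ) (2 + ‖s‖), (‖acorr r G y v‖ + 2 * L * r * CG ^ 2) :=
      integral_mono hmi.norm.integrableOn (hai.add (integrable_const _)) fun y =>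
        ll_moll_acorr hL0 hL hr s v hG hC y
    refine h2.trans (le_of_eq ?_)
    rw [integral_add hai (integrable_const _), integral_const,
      measureReal_restrict_apply MeasurableSet.univ, univ_inter, smul_eq_mul]
    unfold ar
    ring

end Pool.Agent.H24.Tri
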