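import Pool.Agent.H26.Tri.LLB

/-!
# Project TRI, light lemma LL, part C: linearisation on arcs
-/

set_option autoImplicit false

open MeasureTheory Set Complex Metric Filter Topology
open scoped Real ENNReal NNReal FourierTransform ComplexConjugate

namespace Pool.Agent.H24.Tri

theorem ll_cis_lip (θ k : ℝ) : ‖cis (θ + k) - cis θ‖ ≤ |k| := by
  rw [lw_cis_add, ← mul_sub_one, norm_mul, lw_norm_cis, one_mul]
  have h1 := Real.norm_exp_I_mul_ofReal_sub_one_le (x := k)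
  rw [Real.norm_eq_abs] at h1
  unfold cis
  rwa [mul_comm (k : ℂ) Complex.I]

theorem ll_cis_two (θ k : ℝ) (hk : |k| ≤ 1) :
    ‖cis (θ + k) - cis θ - (k : ℂ) * (Complex.I * cis θ)‖ ≤ k ^ 2 := by
  have h1 : cis (θ + k) - cis θ - (k : ℂ) * (Complex.I * cis θ) =
      cis θ * (cis k - 1 - (k : ℂ) * Complex.I) := by
    rw [lw_cis_add]
    ring
  rw [h1, norm_mul, lw_norm_cis, one_mul]
  have h2 : ‖(k : ℂ) * Complex.I‖ = |k| := by
    rw [norm_mul, Complex.norm_I, mul_one, Complex.norm_real, Real.norm_eq_abs]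
  have h3 := Complex.norm_exp_sub_one_sub_id_le (x := (k : ℂ) * Complex.I) (by rw [h2]; exact hk)
  rw [h2, sq_abs] at h3
  exact h3

theorem ll_cis_lin (θ k : ℝ) (hk : |k| ≤ 1) (w : ℂ) (d : ℝ) (hd : ‖cis θ - w‖ ≤ d) :
    ‖cis (θ + k) - (cis θ + (k : ℂ) * (Complex.I * w))‖ ≤ k ^ 2 + |k| * d := by
  have h1 : cis (θ + k) - (cis θ + (k : ℂ) * (Complex.I * w)) =
      (cis (θ + k) - cis θ - (k : ℂ) * (Complex.I * cis θ)) +
        (k : ℂ) * (Complex.I * (cis θ - w)) := by ring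
  rw [h1]
  refine (norm_add_le _ _).trans (add_le_add (ll_cis_two θ k hk) ?_)
  rw [norm_mul, norm_mul, Complex.norm_I, one_mul, Complex.norm_real, Real.norm_eq_abs]
  exact mul_le_mul_of_nonneg_left hd (abs_nonneg _)

/-- the integrand -/
noncomputable def FF (α β γ : ℂ) (G g : ℂ → ℂ) (z : ℂ) (θ : ℝ) : ℂ :=
  (psi0 (z + γ * cis θ) : ℂ) * G (z + α * cis θ) * g (z + β * cis θ)

theorem FF_continuous (α β γ : ℂ) {G g : ℂ → ℂ} (hG : Continuous G) (hg : Continuous g) :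
    Continuous (Function.uncurry (FF α β γ G g)) := by
  have h1 : ∀ a : ℂ, Continuous fun p : ℂ × ℝ => p.1 + a * cis p.2 := fun a =>
    continuous_fst.add (continuous_const.mul (lw_continuous_cis.comp continuous_snd))
  have h2 : Continuous fun p : ℂ × ℝ => ((psi0 (p.1 + γ * cis p.2) : ℝ) : ℂ) :=
    Complex.continuous_ofReal.comp (psi0_smooth.continuous.comp (h1 γ))
  have h3 : Continuous fun p : ℂ × ℝ => G (p.1 + α * cis p.2) := hG.comp (h1 α)
  have h4 : Continuous fun p : ℂ × ℝ => g (p.1 + β * cis p.2) := hg.comp (h1 β)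
  have h5 := (h2.mul h3).mul h4
  exact h5

theorem FF_bound (α β γ : ℂ) {G g : ℂ → ℂ} {CG Cg : ℝ} (hC : ∀ x, ‖G x‖ ≤ CG)
    (hg : ∀ x, ‖g x‖ ≤ Cg) (z : ℂ) (θ : ℝ) : ‖FF α β γ G g z θ‖ ≤ CG * Cg := by
  have hCG : 0 ≤ CG := (norm_nonneg _).trans (hC 0)
  unfold FF
  rw [norm_mul, norm_mul, Complex.norm_real, Real.norm_of_nonneg (psi0_nonneg _)]
  have h1 : psi0 (z + γ * cis θ) * ‖G (z + α * cis θ)‖ ≤ 1 * CG :=
    mul_le_mul (psi0_le_one _) (hC _) (norm_nonneg _) (by norm_num)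
  rw [one_mul] at h1
  exact mul_le_mul h1 (hg _) (norm_nonneg _) hCG

theorem FF_periodic (α β γ : ℂ) (G g : ℂ → ℂ) (z : ℂ) (θ : ℝ) :
    FF α β γ G g z (θ + 2 * π) = FF α β γ G g z θ := by
  have h1 : cis (θ + 2 * π) = cis θ := by
    rw [lw_cis_add]
    have : cis (2 * π) = 1 := by
      unfold cis
      push_cast
      exact Complex.exp_two_pi_mul_I
    rw [this, mul_one]
  unfold FF
  rw [h1]

theorem FF_zero (α β γ : ℂ) (G g : ℂ → ℂ) (z : ℂ) (θ : ℝ) (h : 1 + ‖γ‖ < ‖z‖) :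
    FF α β γ G g z θ = 0 := by
  unfold FF
  have h1 : 1 ≤ ‖z + γ * cis θ‖ := by
    have h2 : ‖z‖ ≤ ‖z + γ * cis θ‖ + ‖γ‖ := by
      calc ‖z‖ = ‖(z + γ * cis θ) - γ * cis θ‖ := by ring_nf
        _ ≤ ‖z + γ * cis θ‖ + ‖γ * cis θ‖ := norm_sub_le _ _
        _ = ‖z + γ * cis θ‖ + ‖γ‖ := by rw [norm_mul, lw_norm_cis, mul_one]
    linarith
  rw [psi0_zero _ h1]
  norm_num

/-- pointwise error of the linearisation -/
theorem ll_pt {L : ℝ} (hL0 : 0 ≤ L) (hL : ∀ x y : ℂ, |psi0 x - psi0 y| ≤ L * ‖x - y‖)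
    (α β γ : ℂ) {G g : ℂ → ℂ} {CG Cg R : ℝ} (hR : 0 ≤ R) (hC : ∀ x, ‖G x‖ ≤ CG)
    (hGl : ∀ x y, ‖G x - G y‖ ≤ CG * R * ‖x - y‖) (hg : ∀ x, ‖g x‖ ≤ Cg)
    (hgl : ∀ x y, ‖g x - g y‖ ≤ Cg * R * ‖x - y‖) (z : ℂ) (θ k : ℝ) (hk : |k| ≤ 1) (w : ℂ) (d : ℝ)
    (hd : ‖cis θ - w‖ ≤ d) :
    ‖FF α β γ G g z θ * conj (FF α β γ G g z (θ + k)) -
      ff ((γ - α) * w) ((k : ℂ) * (Complex.I * α * w)) G (z + α * cis θ) *
        (g (z + β * cis θ) * conj (g (z + β * cis θ + (k : ℂ) * (Complex.I * β * w))))‖ ≤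
      CG ^ 2 * Cg ^ 2 * (L * ‖γ‖ * |k| + 2 * L * ‖γ - α‖ * d +
        (‖α‖ + ‖β‖) * R * (k ^ 2 + |k| * d)) := by
  have hCG : 0 ≤ CG := (norm_nonneg _).trans (hC 0)
  have hCg : 0 ≤ Cg := (norm_nonneg _).trans (hg 0)
  set u := cis θ with hu
  set u' := cis (θ + k) with hu'
  set e := k ^ 2 + |k| * d with he
  have hlin : ‖u' - (u + (k : ℂ) * (Complex.I * w))‖ ≤ e := ll_cis_lin θ k hk w d hd
  set a := psi0 (z + γ * u) with ha
  set a' := psi0 (z + γ * u') with ha'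
  set a2 := psi0 (z + α * u + (γ - α) * w) ^ 2 with ha2
  set X := G (z + α * u) * g (z + β * u) with hX
  set Y := G (z + α * u') * g (z + β * u') with hY
  set Y' := G (z + α * u + (k : ℂ) * (Complex.I * α * w)) *
    g (z + β * u + (k : ℂ) * (Complex.I * β * w)) with hY'
  have hXb : ‖X‖ ≤ CG * Cg := by
    rw [hX, norm_mul]
    exact mul_le_mul (hC _) (hg _) (norm_nonneg _) hCG
  have hYb : ‖Y‖ ≤ CG * Cg := by
    rw [hY, norm_mul]
    exact mul_le_mul (hC _) (hg _) (norm_nonneg _) hCG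
  have hpt : ∀ a : ℂ, ‖z + a * u' - (z + a * u + (k : ℂ) * (Complex.I * a * w))‖ ≤ ‖a‖ * e := by
    intro a
    have h1 : z + a * u' - (z + a * u + (k : ℂ) * (Complex.I * a * w)) =
        a * (u' - (u + (k : ℂ) * (Complex.I * w))) := by ring
    rw [h1, norm_mul]
    exact mul_le_mul_of_nonneg_left hlin (norm_nonneg _)
  have hYY : ‖Y - Y'‖ ≤ CG * Cg * ((‖α‖ + ‖β‖) * R * e) := by
    have h1 : Y - Y' = (G (z + α * u') - G (z + α * u + (k : ℂ) * (Complex.I * α * w))) *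
        g (z + β * u') + G (z + α * u + (k : ℂ) * (Complex.I * α * w)) *
        (g (z + β * u') - g (z + β * u + (k : ℂ) * (Complex.I * β * w))) := by
      rw [hY, hY']
      ring
    rw [h1]
    have h2 : ‖G (z + α * u') - G (z + α * u + (k : ℂ) * (Complex.I * α * w))‖ ≤
        CG * R * (‖α‖ * e) :=
      (hGl _ _).trans (mul_le_mul_of_nonneg_left (hpt α) (by positivity))
    have h3 : ‖g (z + β * u') - g (z + β * u + (k : ℂ) * (Complex.I * β * w))‖ ≤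
        Cg * R * (‖β‖ * e) :=
      (hgl _ _).trans (mul_le_mul_of_nonneg_left (hpt β) (by positivity))
    have he0 : 0 ≤ e := (norm_nonneg _).trans hlin
    refine (norm_add_le _ _).trans ?_
    rw [norm_mul, norm_mul]
    calc _ ≤ CG * R * (‖α‖ * e) * Cg + CG * (Cg * R * (‖β‖ * e)) := by
          refine add_le_add (mul_le_mul h2 (hg _) (norm_nonneg _) (by positivity)) ?_
          exact mul_le_mul (hC _) h3 (norm_nonneg _) hCG
      _ = CG * Cg * ((‖α‖ + ‖β‖) * R * e) := by ring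
  have hk1 : ‖u' - u‖ ≤ |k| := ll_cis_lip θ k
  have h1 : |a * (a' - a)| ≤ L * ‖γ‖ * |k| := by
    rw [abs_mul]
    have h2 : |a' - a| ≤ L * (‖γ‖ * |k|) := by
      refine (hL _ _).trans (mul_le_mul_of_nonneg_left ?_ hL0)
      have h3 : z + γ * u' - (z + γ * u) = γ * (u' - u) := by ring
      rw [h3, norm_mul]
      exact mul_le_mul_of_nonneg_left hk1 (norm_nonneg _)
    have h4 : |a| ≤ 1 := by
      rw [ha, abs_of_nonneg (psi0_nonneg _)]
      exact psi0_le_one _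
    calc |a| * |a' - a| ≤ 1 * (L * (‖γ‖ * |k|)) :=
          mul_le_mul h4 h2 (abs_nonneg _) (by norm_num)
      _ = L * ‖γ‖ * |k| := by ring
  have h2 : |a ^ 2 - a2| ≤ 2 * L * ‖γ - α‖ * d := by
    refine (ll_psi0_sq_lip hL _ _).trans ?_
    have h3 : z + γ * u - (z + α * u + (γ - α) * w) = (γ - α) * (u - w) := by ring
    rw [h3, norm_mul, mul_assoc (2 * L)]
    exact mul_le_mul_of_nonneg_left (mul_le_mul_of_nonneg_left hd (norm_nonneg _)) (by positivity)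
  have h3 : |a2| ≤ 1 := by
    rw [ha2, abs_of_nonneg (sq_nonneg _)]
    exact pow_le_one₀ (psi0_nonneg _) (psi0_le_one _)
  have key : FF α β γ G g z θ * conj (FF α β γ G g z (θ + k)) -
      ff ((γ - α) * w) ((k : ℂ) * (Complex.I * α * w)) G (z + α * u) *
        (g (z + β * u) * conj (g (z + β * u + (k : ℂ) * (Complex.I * β * w)))) =
      ((a * (a' - a) : ℝ) : ℂ) * (X * conj Y) + ((a ^ 2 - a2 : ℝ) : ℂ) * (X * conj Y) +
        (a2 : ℂ) * (X * conj (Y - Y')) := by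
    unfold FF ff
    rw [← hu, ← hu', ← ha, ← ha', ← ha2, hX, hY, hY']
    simp only [map_mul, map_sub, Complex.conj_ofReal]
    push_cast
    ring
  rw [key]
  have hXY : ‖X * conj Y‖ ≤ CG ^ 2 * Cg ^ 2 := by
    rw [norm_mul, RCLike.norm_conj]
    calc ‖X‖ * ‖Y‖ ≤ (CG * Cg) * (CG * Cg) := mul_le_mul hXb hYb (norm_nonneg _) (by positivity)
      _ = CG ^ 2 * Cg ^ 2 := by ring
  have hXYY : ‖X * conj (Y - Y')‖ ≤ CG ^ 2 * Cg ^ 2 * ((‖α‖ + ‖β‖) * R * e) := by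
    rw [norm_mul, RCLike.norm_conj]
    calc ‖X‖ * ‖Y - Y'‖ ≤ (CG * Cg) * (CG * Cg * ((‖α‖ + ‖β‖) * R * e)) :=
          mul_le_mul hXb hYY (norm_nonneg _) (by positivity)
      _ = CG ^ 2 * Cg ^ 2 * ((‖α‖ + ‖β‖) * R * e) := by ring
  have hd0 : 0 ≤ d := (norm_nonneg _).trans hd
  refine (norm_add_le _ _).trans ?_
  refine (add_le_add_left (norm_add_le _ _) _).trans ?_
  have hn : ∀ (t : ℝ) (w : ℂ), ‖(t : ℂ) * w‖ = |t| * ‖w‖ := fun t w => by
    rw [norm_mul, Complex.norm_real, Real.norm_eq_abs]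
  rw [hn (a * (a' - a)) (X * conj Y), hn (a ^ 2 - a2) (X * conj Y), hn a2 (X * conj (Y - Y'))]
  calc _ ≤ (L * ‖γ‖ * |k|) * (CG ^ 2 * Cg ^ 2) + (2 * L * ‖γ - α‖ * d) * (CG ^ 2 * Cg ^ 2) +
        1 * (CG ^ 2 * Cg ^ 2 * ((‖α‖ + ‖β‖) * R * e)) := by
        refine add_le_add (add_le_add ?_ ?_) ?_
        · exact mul_le_mul h1 hXY (norm_nonneg _) (by positivity)
        · exact mul_le_mul h2 hXY (norm_nonneg _) (by positivity)
        · exact mul_le_mul h3 hXYY (norm_nonneg _) (by norm_num)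
    _ = _ := by ring

/-- the `j`-th arc -/
noncomputable def arcb (n j : ℕ) : ℝ → ℝ :=
  (Ioc (2 * π * j / n) (2 * π * (j + 1) / n)).indicator fun _ => (1 : ℝ)

theorem arcb_measurable (n j : ℕ) : Measurable (arcb n j) :=
  measurable_const.indicator measurableSet_Ioc

theorem arcb_nonneg (n j : ℕ) (θ : ℝ) : 0 ≤ arcb n j θ :=
  indicator_nonneg (fun _ _ => zero_le_one) _

theorem arcb_le_one (n j : ℕ) (θ : ℝ) : arcb n j θ ≤ 1 :=
  indicator_le_self' (fun _ _ => zero_le_one) _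

theorem arc_subset {n j : ℕ} (hj : j < n) :
    Ioc (2 * π * j / n) (2 * π * (j + 1) / n) ⊆ Ioc 0 (2 * π) := by
  have hn : (0 : ℝ) < n := by exact_mod_cast (Nat.zero_le j).trans_lt hj
  refine Ioc_subset_Ioc (by positivity) ?_
  rw [div_le_iff₀ hn]
  have : (j : ℝ) + 1 ≤ n := by exact_mod_cast hj
  exact mul_le_mul_of_nonneg_left this Real.two_pi_pos.le

theorem arc_integral {n j : ℕ} (hj : j < n) (f : ℝ → ℂ) :
    ∫ θ in Ioc 0 (2 * π), (arcb n j θ : ℂ) * f θ =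
      ∫ θ in Ioc (2 * π * j / n) (2 * π * (j + 1) / n), f θ := by
  have h1 : ∀ θ, (arcb n j θ : ℂ) * f θ =
      (Ioc (2 * π * j / n) (2 * π * (j + 1) / n)).indicator f θ := by
    intro θ
    unfold arcb
    by_cases h : θ ∈ Ioc (2 * π * j / n) (2 * π * (j + 1) / n)
    · rw [indicator_of_mem h, indicator_of_mem h, Complex.ofReal_one, one_mul]
    · rw [indicator_of_notMem h, indicator_of_notMem h, Complex.ofReal_zero, zero_mul]
  simp_rw [h1]
  rw [setIntegral_indicator measurableSet_Ioc, inter_eq_right.2 (arc_subset hj)]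

theorem arc_length {n j : ℕ} (hn : 0 < n) :
    volume.real (Ioc (2 * π * j / n) (2 * π * (j + 1) / n)) = 2 * π / n := by
  have hn' : (0 : ℝ) < n := by exact_mod_cast hn
  rw [Real.volume_real_Ioc_of_le]
  · field_simp
    ring
  · gcongr
    linarith

theorem arcb_integral {n j : ℕ} (hj : j < n) : ∫ θ in Ioc 0 (2 * π), arcb n j θ = 2 * π / n := by
  unfold arcb
  rw [setIntegral_indicator measurableSet_Ioc, inter_eq_right.2 (arc_subset hj), setIntegral_const,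
    arc_length ((Nat.zero_le j).trans_lt hj), smul_eq_mul, mul_one]

theorem arc_near {n j : ℕ} (hn : 0 < n) {θ : ℝ}
    (hθ : θ ∈ Ioc (2 * π * j / n) (2 * π * (j + 1) / n)) :
    ‖cis θ - cis (2 * π * j / n)‖ ≤ 2 * π / n := by
  have hn' : (0 : ℝ) < n := by exact_mod_cast hn
  have h1 := ll_cis_lip (2 * π * j / n) (θ - 2 * π * j / n)
  rw [show 2 * π * j / n + (θ - 2 * π * j / n) = θ by ring] at h1
  refine h1.trans ?_
  rw [abs_of_nonneg (by linarith [hθ.1])]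
  have h2 : 2 * π * ((j : ℝ) + 1) / n = 2 * π * j / n + 2 * π / n := by ring
  linarith [hθ.2]

theorem arc_sum {n : ℕ} (hn : 0 < n) (f : ℝ → ℂ) (hf : Continuous f) :
    ∫ θ in Ioc 0 (2 * π), f θ =
      ∑ j ∈ Finset.range n, ∫ θ in Ioc (2 * π * j / n) (2 * π * (j + 1) / n), f θ := by
  have hn' : (0 : ℝ) < n := by exact_mod_cast hn
  have h1 := intervalIntegral.sum_integral_adjacent_intervals (μ := volume) (f := f) (n := n)
    (a := fun j : ℕ => 2 * π * j / n) (fun k _ => hf.intervalIntegrable _ _)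
  simp only [Nat.cast_zero, mul_zero, zero_div] at h1
  rw [mul_div_cancel_right₀ _ hn'.ne'] at h1
  rw [← intervalIntegral.integral_of_le Real.two_pi_pos.le, ← h1]
  refine Finset.sum_congr rfl fun j _ => ?_
  rw [intervalIntegral.integral_of_le]
  · push_cast
    rfl
  · push_cast
    gcongr
    linarith

end Pool.Agent.H24.Tri
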