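import Pool.Agent.H26.Tri.LLC

/-!
# Project TRI, light lemma LL, part D: sum over the arcs and averages
-/

set_option autoImplicit false

open MeasureTheory Set Complex Metric Filter Topology
open scoped Real ENNReal NNReal FourierTransform ComplexConjugate

namespace Pool.Agent.H24.Tri

/-- the error term -/
noncomputable def lerr (L : ℝ) (α β γ : ℂ) (CG Cg R k d : ℝ) : ℝ :=
  CG ^ 2 * Cg ^ 2 * (L * ‖γ‖ * k + 2 * L * ‖γ - α‖ * d + (‖α‖ + ‖β‖) * R * (k ^ 2 + k * d))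

/-- the correlation `E(k)` is controlled by the local autocorrelations -/
theorem ll_E {L : ℝ} (hL0 : 0 ≤ L) (hL : ∀ x y : ℂ, |psi0 x - psi0 y| ≤ L * ‖x - y‖)
    (α β γ : ℂ) {G g : ℂ → ℂ} (hGc : Continuous G) (hgc : Continuous g) {CG Cg R : ℝ}
    (hR : 0 ≤ R) (hC : ∀ x, ‖G x‖ ≤ CG)
    (hGl : ∀ x y, ‖G x - G y‖ ≤ CG * R * ‖x - y‖) (hg : ∀ x, ‖g x‖ ≤ Cg)
    (hgl : ∀ x y, ‖g x - g y‖ ≤ Cg * R * ‖x - y‖) {r : ℝ} (hr : 0 < r) (hr1 : r ≤ 1)
    {ε : ℝ} (hε : 0 ≤ ε) {n : ℕ} (hn : 0 < n)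
    (hsm : ∀ j < n, ∀ F : ℂ → ℂ, Measurable F → (∃ K : ℝ, ∀ x, ‖F x‖ ≤ K) →
      (∃ D : ℝ, ∀ x, D ≤ ‖x‖ → F x = 0) →
      ∫⁻ x, ‖circConv (arcb n j) (α - β) (fun y => F y - moll psiSq r F y) x‖ₑ ^ 2 ≤
        ENNReal.ofReal ε * ∫⁻ x, ‖F x‖ₑ ^ 2)
    (ρ : ℝ) (hρ : 1 + ‖γ - α‖ + ‖α‖ ≤ ρ) (k : ℝ) (hk : |k| ≤ 1) :
    ‖∫ θ in Ioc 0 (2 * π), ∫ z in closedBall (0 : ℂ) ρ,
        FF α β γ G g z θ * conj (FF α β γ G g z (θ + k))‖ ≤
      ∑ j ∈ Finset.range n, (lerr L α β γ CG Cg R |k| (2 * π / n) * ar ρ * (2 * π / n) +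
        Cg ^ 2 * (Real.sqrt (ar (2 + ‖γ - α‖ + ‖α - β‖) * (ε * (CG ^ 4 * ar (1 + ‖γ - α‖)))) +
          2 * π / n * ((∫ y in closedBall (0 : ℂ) (2 + ‖γ - α‖),
            ‖acorr r G y ((k : ℂ) * (Complex.I * α * cis (2 * π * j / n)))‖) +
          2 * L * r * CG ^ 2 * ar (2 + ‖γ - α‖)))) := by
  have hCG : 0 ≤ CG := (norm_nonneg _).trans (hC 0)
  have hCg : 0 ≤ Cg := (norm_nonneg _).trans (hg 0)
  set ν : Measure ℂ := volume.restrict (closedBall (0 : ℂ) ρ) with hν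
  have hνf : IsFiniteMeasure ν := isFiniteMeasure_restrict.2 measure_closedBall_lt_top.ne
  have hνm : ν.real univ = ar ρ := by
    rw [hν, measureReal_restrict_apply MeasurableSet.univ, univ_inter]
    rfl
  have hFc := FF_continuous α β γ hGc hgc
  have hFb := FF_bound α β γ hC hg
  have hcz : ∀ z, Continuous fun θ : ℝ => FF α β γ G g z θ * conj (FF α β γ G g z (θ + k)) := by
    intro z
    have h1 : Continuous fun θ : ℝ => (z, θ) := by fun_prop
    have h2 : Continuous fun θ : ℝ => (z, θ + k) := by fun_prop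
    have h3 := hFc.comp h1
    have h4 := Complex.continuous_conj.comp (hFc.comp h2)
    exact h3.mul h4
  have hcθ : ∀ θ : ℝ, Continuous fun z : ℂ => FF α β γ G g z θ * conj (FF α β γ G g z (θ + k)) := by
    intro θ
    have h1 : Continuous fun z : ℂ => (z, θ) := by fun_prop
    have h2 : Continuous fun z : ℂ => (z, θ + k) := by fun_prop
    have h3 := hFc.comp h1
    have h4 := Complex.continuous_conj.comp (hFc.comp h2)
    exact h3.mul h4
  have hbb : ∀ (z : ℂ) (θ : ℝ), ‖FF α β γ G g z θ * conj (FF α β γ G g z (θ + k))‖ ≤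
      (CG * Cg) * (CG * Cg) := by
    intro z θ
    rw [norm_mul, RCLike.norm_conj]
    exact mul_le_mul (hFb _ _) (hFb _ _) (norm_nonneg _) (by positivity)
  set e : ℝ → ℂ := fun θ => ∫ z, FF α β γ G g z θ * conj (FF α β γ G g z (θ + k)) ∂ν with he
  have hec : Continuous e :=
    continuous_of_dominated (bound := fun _ => (CG * Cg) * (CG * Cg))
      (fun θ => (hcθ θ).aestronglyMeasurable) (fun θ => Eventually.of_forall fun z => hbb z θ)
      (integrable_const _) (Eventually.of_forall fun z => hcz z)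
  rw [arc_sum hn e hec]
  refine (norm_sum_le _ _).trans (Finset.sum_le_sum fun j hj => ?_)
  have hjn : j < n := Finset.mem_range.1 hj
  set w := cis (2 * π * j / n) with hw
  set v := (k : ℂ) * (Complex.I * α * w) with hv
  set s := (γ - α) * w with hs
  have hsn : ‖s‖ = ‖γ - α‖ := by rw [hs, norm_mul, hw, lw_norm_cis, mul_one]
  set q : ℂ → ℂ := fun x => g x * conj (g (x + (k : ℂ) * (Complex.I * β * w))) with hq
  have hqc : Continuous q :=
    hgc.mul (Complex.continuous_conj.comp (hgc.comp (by fun_prop)))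
  have hqb : ∀ x, ‖q x‖ ≤ Cg ^ 2 := fun x => gg_bound hg _ _
  have hfc : Continuous (ff s v G) := ff_continuous s v hGc
  have hfb : ∀ x, ‖ff s v G x‖ ≤ CG ^ 2 := fun x => ff_bound s v hC x
  have hmain : Continuous fun p : ℂ × ℝ =>
      ff s v G (p.1 + α * cis p.2) * q (p.1 + β * cis p.2) := by
    have h1 : ∀ a : ℂ, Continuous fun p : ℂ × ℝ => p.1 + a * cis p.2 := fun a =>
      continuous_fst.add (continuous_const.mul (lw_continuous_cis.comp continuous_snd))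
    exact (hfc.comp (h1 α)).mul (hqc.comp (h1 β))
  have hmb : ∀ (z : ℂ) (θ : ℝ), ‖ff s v G (z + α * cis θ) * q (z + β * cis θ)‖ ≤
      CG ^ 2 * Cg ^ 2 := by
    intro z θ
    rw [norm_mul]
    exact mul_le_mul (hfb _) (hqb _) (norm_nonneg _) (by positivity)
  set N : ℝ → ℂ := fun θ => ∫ z, ff s v G (z + α * cis θ) * q (z + β * cis θ) ∂ν with hN
  have hmθ : ∀ θ : ℝ, Continuous fun z : ℂ =>
      ff s v G (z + α * cis θ) * q (z + β * cis θ) := by
    intro θ
    have h1 : Continuous fun z : ℂ => (z, θ) := by fun_prop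
    have h2 := hmain.comp h1
    exact h2
  have hmz : ∀ z : ℂ, Continuous fun θ : ℝ =>
      ff s v G (z + α * cis θ) * q (z + β * cis θ) := by
    intro z
    have h1 : Continuous fun θ : ℝ => (z, θ) := by fun_prop
    have h2 := hmain.comp h1
    exact h2
  have hNc : Continuous N :=
    continuous_of_dominated (bound := fun _ => CG ^ 2 * Cg ^ 2)
      (fun θ => (hmθ θ).aestronglyMeasurable) (fun θ => Eventually.of_forall fun z => hmb z θ)
      (integrable_const _) (Eventually.of_forall fun z => hmz z)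
  have hNeq : ∀ θ, N θ = ∫ z, ff s v G (z + α * cis θ) * q (z + β * cis θ) := by
    intro θ
    rw [hN, hν]
    refine ll_restrict (fun z => ff s v G (z + α * cis θ) * q (z + β * cis θ)) ρ fun z hz => ?_
    rw [ff_zero, zero_mul]
    have h2 : ‖z‖ ≤ ‖z + α * cis θ‖ + ‖α‖ := by
      calc ‖z‖ = ‖(z + α * cis θ) - α * cis θ‖ := by ring_nf
        _ ≤ ‖z + α * cis θ‖ + ‖α * cis θ‖ := norm_sub_le _ _
        _ = ‖z + α * cis θ‖ + ‖α‖ := by rw [norm_mul, lw_norm_cis, mul_one]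
    rw [hsn]
    linarith
  have hA : ∀ θ ∈ Ioc (2 * π * j / n) (2 * π * (j + 1) / n), ‖e θ - N θ‖ ≤
      lerr L α β γ CG Cg R |k| (2 * π / n) * ar ρ := by
    intro θ hθ
    have h1 : e θ - N θ = ∫ z, (FF α β γ G g z θ * conj (FF α β γ G g z (θ + k)) -
        ff s v G (z + α * cis θ) * q (z + β * cis θ)) ∂ν := by
      rw [he, hN]
      simp only
      rw [integral_sub (ll_int _ (hcθ θ) _ fun z => hbb z θ) (ll_int _ (hmθ θ) _ fun z => hmb z θ)]
    rw [h1, ← hνm]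
    refine norm_integral_le_of_norm_le_const (Eventually.of_forall fun z => ?_)
    have h2 := ll_pt hL0 hL α β γ hR hC hGl hg hgl z θ k hk w (2 * π / n) (arc_near hn hθ)
    unfold lerr
    rw [sq_abs]
    exact h2
  have h1 : ∫ θ in Ioc (2 * π * j / n) (2 * π * (j + 1) / n), e θ =
      (∫ θ in Ioc (2 * π * j / n) (2 * π * (j + 1) / n), (e θ - N θ)) +
      ∫ θ in Ioc (2 * π * j / n) (2 * π * (j + 1) / n), N θ := by
    rw [← integral_add]
    · simp
    · exact (hec.sub hNc).integrableOn_Ioc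
    · exact hNc.integrableOn_Ioc
  rw [h1]
  refine (norm_add_le _ _).trans (add_le_add ?_ ?_)
  · have h2 := norm_setIntegral_le_of_norm_le_const (μ := (volume : Measure ℝ))
      (s := Ioc (2 * π * j / n) (2 * π * (j + 1) / n)) (f := fun θ => e θ - N θ)
      (by rw [Real.volume_Ioc]; exact ENNReal.ofReal_lt_top) hA
    rwa [arc_length hn] at h2
  · rw [← arc_integral hjn]
    simp_rw [hNeq]
    have h2 := ll_arc hL0 hL α β (arcb n j) (arcb_measurable n j) (arcb_nonneg n j)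
      (arcb_le_one n j) hr hr1 s v hGc hqc hC hqb hε
      (hsm j hjn _ hfc.measurable ⟨_, hfb⟩ ⟨2 + ‖s‖, fun x hx => ff_zero s v G x (by linarith)⟩)
    rw [hsn, arcb_integral hjn] at h2
    exact h2

/-- averages of the autocorrelation -/
theorem ll_avg (α : ℂ) {n : ℕ} (hn : 0 < n) {η : ℝ} (hη : 0 < η) {r : ℝ} (hr : 0 < r)
    {G : ℂ → ℂ} (hG : Continuous G) {CG : ℝ} (hC : ∀ x, ‖G x‖ ≤ CG) (D : ℝ) :
    (n : ℝ)⁻¹ * ∑ j ∈ Finset.range n, (η ^ 2)⁻¹ * ∫ h in Ioc 0 η, ∫ h' in Ioc 0 η,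
      ∫ y in closedBall (0 : ℂ) D,
        ‖acorr r G y (((h - h' : ℝ) : ℂ) * (Complex.I * α * cis (2 * π * j / n)))‖ ≤
      Real.sqrt (ar D * ∫ y in closedBall (0 : ℂ) D, avgA α n η r G y) := by
  set μh : Measure ℝ := volume.restrict (Ioc 0 η) with hμh
  set ν : Measure ℂ := volume.restrict (closedBall (0 : ℂ) D) with hν
  have hνf : IsFiniteMeasure ν := isFiniteMeasure_restrict.2 measure_closedBall_lt_top.ne
  have hνm : ν.real univ = ar D := by
    rw [hν, measureReal_restrict_apply MeasurableSet.univ, univ_inter]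
    rfl
  have hmass : μh.real univ = η := by
    rw [hμh, measureReal_restrict_apply MeasurableSet.univ, univ_inter,
      Real.volume_real_Ioc_of_le hη.le, sub_zero]
  set a : ℕ → (ℝ × ℝ) → ℂ → ℝ := fun j q y =>
    ‖acorr r G y (((q.1 - q.2 : ℝ) : ℂ) * (Complex.I * α * cis (2 * π * j / n)))‖ with ha
  have hac : ∀ j, Continuous (Function.uncurry (a j)) := by
    intro j
    have h1 : Continuous fun p : (ℝ × ℝ) × ℂ =>
        (p.2, ((p.1.1 - p.1.2 : ℝ) : ℂ) * (Complex.I * α * cis (2 * π * j / n))) := by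
      fun_prop
    have h2 := (ll_acorr_continuous hr hG hC).comp h1
    exact h2.norm
  have ha0 : ∀ j q y, 0 ≤ a j q y := fun j q y => norm_nonneg _
  have hab : ∀ j q y, a j q y ≤ CG ^ 2 := fun j q y => ll_acorr_bound hr hC _ _
  have haq : ∀ j y, Continuous fun q => a j q y := by
    intro j y
    have h1 : Continuous fun q : ℝ × ℝ => (q, y) := by fun_prop
    have h2 := (hac j).comp h1
    exact h2
  have hai : ∀ j, Integrable (Function.uncurry (a j)) ((μh.prod μh).prod ν) := fun j =>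
    ll_int _ (hac j) (CG ^ 2) fun p => by
      rw [Real.norm_eq_abs]
      simp only [Function.uncurry]
      rw [abs_of_nonneg (ha0 _ _ _)]
      exact hab _ _ _
  have hab2 : ∀ j q y, ‖a j q y ^ 2‖ ≤ (CG ^ 2) ^ 2 := fun j q y => by
    rw [Real.norm_eq_abs, abs_of_nonneg (sq_nonneg _)]
    exact pow_le_pow_left₀ (ha0 _ _ _) (hab _ _ _) 2
  have hai2 : ∀ j, Integrable (fun p : (ℝ × ℝ) × ℂ => a j p.1 p.2 ^ 2) ((μh.prod μh).prod ν) :=
    fun j => by
      have h1 : Continuous fun p : (ℝ × ℝ) × ℂ => a j p.1 p.2 ^ 2 := (hac j).pow 2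
      exact ll_int _ h1 ((CG ^ 2) ^ 2) fun p => hab2 _ _ _
  -- the first expression
  have hS1 : ∀ j : ℕ, ∫ h, ∫ h', ∫ y,
      ‖acorr r G y (((h - h' : ℝ) : ℂ) * (Complex.I * α * cis (2 * π * j / n)))‖ ∂ν ∂μh ∂μh =
      ∫ p, a j p.1 p.2 ∂((μh.prod μh).prod ν) := by
    intro j
    have h1 := integral_prod _ (hai j)
    have h2 := integral_prod _ (hai j).integral_prod_left
    have h3 : ∫ p, a j p.1 p.2 ∂((μh.prod μh).prod ν) =
        ∫ p, Function.uncurry (a j) p ∂((μh.prod μh).prod ν) := rfl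
    rw [h3, h1]
    simp only [Function.uncurry] at h2 ⊢
    rw [h2]
  -- the second expression
  have hS2 : ∫ y in closedBall (0 : ℂ) D, avgA α n η r G y =
      (n : ℝ)⁻¹ * ∑ j ∈ Finset.range n, (η ^ 2)⁻¹ *
        ∫ p, a j p.1 p.2 ^ 2 ∂((μh.prod μh).prod ν) := by
    have h1 : ∀ y, avgA α n η r G y = (n : ℝ)⁻¹ * ∑ j ∈ Finset.range n, (η ^ 2)⁻¹ *
        ∫ q, a j q y ^ 2 ∂(μh.prod μh) := by
      intro y
      unfold avgA
      congr 1
      refine Finset.sum_congr rfl fun j _ => ?_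
      congr 1
      have h2 : Integrable (fun q : ℝ × ℝ => a j q y ^ 2) (μh.prod μh) :=
        ll_int _ ((haq j y).pow 2) ((CG ^ 2) ^ 2) fun q => hab2 _ _ _
      rw [integral_prod _ h2]
    have h3 : ∀ j, Integrable (fun y => ∫ q, a j q y ^ 2 ∂(μh.prod μh)) ν := fun j =>
      (hai2 j).integral_prod_right
    simp_rw [h1]
    rw [integral_const_mul, integral_finsetSum _ fun j _ => (h3 j).const_mul _]
    congr 1
    refine Finset.sum_congr rfl fun j _ => ?_
    rw [integral_const_mul, integral_prod_symm _ (hai2 j)]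
  simp_rw [hS1]
  rw [hS2]
  -- Cauchy-Schwarz
  set B : (ℝ × ℝ) × ℂ → ℝ := fun p => (n : ℝ)⁻¹ * ∑ j ∈ Finset.range n, a j p.1 p.2 with hB
  have hn' : (0 : ℝ) < n := by exact_mod_cast hn
  have hac' : ∀ j, Continuous fun p : (ℝ × ℝ) × ℂ => a j p.1 p.2 := fun j => hac j
  have hBc : Continuous B :=
    continuous_const.mul (continuous_finsetSum _ fun j _ => hac' j)
  have hB0 : ∀ p, 0 ≤ B p := fun p =>
    mul_nonneg (by positivity) (Finset.sum_nonneg fun j _ => ha0 _ _ _)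
  have hBb : ∀ p, B p ≤ CG ^ 2 := fun p => by
    have h1 : ∑ j ∈ Finset.range n, a j p.1 p.2 ≤ ∑ _j ∈ Finset.range n, CG ^ 2 :=
      Finset.sum_le_sum fun j _ => hab _ _ _
    rw [Finset.sum_const, Finset.card_range, nsmul_eq_mul] at h1
    calc B p ≤ (n : ℝ)⁻¹ * (n * CG ^ 2) := mul_le_mul_of_nonneg_left h1 (by positivity)
      _ = CG ^ 2 := by field_simp
  have hBi : Integrable B ((μh.prod μh).prod ν) := ll_int _ hBc (CG ^ 2) fun p => by
    rw [Real.norm_eq_abs, abs_of_nonneg (hB0 p)]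
    exact hBb p
  have hBi2 : Integrable (fun p => B p ^ 2) ((μh.prod μh).prod ν) :=
    ll_int _ (hBc.pow 2) ((CG ^ 2) ^ 2) fun p => by
      rw [Real.norm_eq_abs, abs_of_nonneg (sq_nonneg _)]
      exact pow_le_pow_left₀ (hB0 p) (hBb p) 2
  have hcs := ll_cs _ hBi hBi2
  have hm : ((μh.prod μh).prod ν).real univ = η ^ 2 * ar D := by
    rw [← hνm, ← hmass, measureReal_def, measureReal_def, measureReal_def,
      ← univ_prod_univ, Measure.prod_prod, ← univ_prod_univ, Measure.prod_prod,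
      ENNReal.toReal_mul, ENNReal.toReal_mul, sq]
  have hB1 : ∫ p, B p ∂((μh.prod μh).prod ν) =
      (n : ℝ)⁻¹ * ∑ j ∈ Finset.range n, ∫ p, a j p.1 p.2 ∂((μh.prod μh).prod ν) := by
    have hai' : ∀ j, Integrable (fun p : (ℝ × ℝ) × ℂ => a j p.1 p.2) ((μh.prod μh).prod ν) :=
      fun j => hai j
    rw [hB, integral_const_mul, integral_finsetSum _ fun j _ => hai' j]
  have hB2 : ∫ p, B p ^ 2 ∂((μh.prod μh).prod ν) ≤
      (n : ℝ)⁻¹ * ∑ j ∈ Finset.range n, ∫ p, a j p.1 p.2 ^ 2 ∂((μh.prod μh).prod ν) := by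
    rw [← integral_finsetSum _ fun j _ => hai2 j, ← integral_const_mul]
    refine integral_mono hBi2 ((integrable_finsetSum _ fun j _ => hai2 j).const_mul _) fun p => ?_
    rw [hB]
    simp only
    have h1 := sq_sum_le_card_mul_sum_sq (s := Finset.range n) (f := fun j => a j p.1 p.2)
    rw [Finset.card_range] at h1
    rw [mul_pow]
    calc ((n : ℝ)⁻¹) ^ 2 * (∑ j ∈ Finset.range n, a j p.1 p.2) ^ 2 ≤
          ((n : ℝ)⁻¹) ^ 2 * (n * ∑ j ∈ Finset.range n, a j p.1 p.2 ^ 2) :=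
          mul_le_mul_of_nonneg_left h1 (by positivity)
      _ = (n : ℝ)⁻¹ * ∑ j ∈ Finset.range n, a j p.1 p.2 ^ 2 := by field_simp
  refine Real.le_sqrt_of_sq_le ?_
  rw [← Finset.mul_sum, ← Finset.mul_sum]
  have h5 : (n : ℝ)⁻¹ * ((η ^ 2)⁻¹ * ∑ j ∈ Finset.range n,
      ∫ p, a j p.1 p.2 ∂((μh.prod μh).prod ν)) = (η ^ 2)⁻¹ * ∫ p, B p ∂((μh.prod μh).prod ν) := by
    rw [hB1]
    ring
  rw [h5, mul_pow]
  rw [hm] at hcs
  calc ((η ^ 2)⁻¹) ^ 2 * (∫ p, B p ∂((μh.prod μh).prod ν)) ^ 2 ≤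
        ((η ^ 2)⁻¹) ^ 2 * (η ^ 2 * ar D * ∫ p, B p ^ 2 ∂((μh.prod μh).prod ν)) :=
        mul_le_mul_of_nonneg_left hcs (by positivity)
    _ = ar D * ((η ^ 2)⁻¹ * ∫ p, B p ^ 2 ∂((μh.prod μh).prod ν)) := by field_simp
    _ ≤ ar D * ((η ^ 2)⁻¹ * ((n : ℝ)⁻¹ * ∑ j ∈ Finset.range n,
        ∫ p, a j p.1 p.2 ^ 2 ∂((μh.prod μh).prod ν))) := by
        have := ar_nonneg D
        gcongr
    _ = _ := by ring

/-- the form is controlled by the `L²` norm of `T` -/
theorem ll_form (α β γ : ℂ) {G g h : ℂ → ℂ} (hGc : Continuous G) (hgc : Continuous g)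
    (hh : Measurable h) {Ch CG Cg : ℝ} (hCh : ∀ x, ‖h x‖ ≤ Ch)
    (hC : ∀ x, ‖G x‖ ≤ CG) (hg : ∀ x, ‖g x‖ ≤ Cg) (ρ : ℝ) (hρ : 1 + ‖γ‖ ≤ ρ) :
    ‖Iform α β γ h G g‖ ^ 2 ≤ Ch ^ 2 * (ar ρ *
      ∫ z in closedBall (0 : ℂ) ρ, ‖∫ θ in Ioc 0 (2 * π), FF α β γ G g z θ‖ ^ 2) := by
  have hCG : 0 ≤ CG := (norm_nonneg _).trans (hC 0)
  have hCg : 0 ≤ Cg := (norm_nonneg _).trans (hg 0)
  have hCh0 : 0 ≤ Ch := (norm_nonneg _).trans (hCh 0)
  set ν : Measure ℂ := volume.restrict (closedBall (0 : ℂ) ρ) with hν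
  have hνf : IsFiniteMeasure ν := isFiniteMeasure_restrict.2 measure_closedBall_lt_top.ne
  have hνm : ν.real univ = ar ρ := by
    rw [hν, measureReal_restrict_apply MeasurableSet.univ, univ_inter]
    rfl
  have hFc := FF_continuous α β γ hGc hgc
  have hFb := FF_bound α β γ hC hg
  have h1 : Iform α β γ h G g =
      ∫ z, h z * (∫ θ in Ioc 0 (2 * π), FF α β γ G g z θ) ∂ν := by
    unfold Iform
    have h2 : ∀ θ : ℝ, ∫ z, (psi0 (z + γ * cis θ) : ℂ) * h z * G (z + α * cis θ) *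
        g (z + β * cis θ) = ∫ z, h z * FF α β γ G g z θ ∂ν := by
      intro θ
      rw [hν, ll_restrict (fun z => h z * FF α β γ G g z θ) ρ fun z hz => by
        rw [FF_zero _ _ _ _ _ _ _ (hρ.trans_lt hz), mul_zero]]
      congr 1
      funext z
      unfold FF
      ring
    simp_rw [h2]
    rw [integral_integral_swap]
    · congr 1
      funext z
      rw [integral_const_mul]
    · have h3 : Measurable fun p : ℝ × ℂ => h p.2 * FF α β γ G g p.2 p.1 := by
        refine (hh.comp measurable_snd).mul ?_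
        have h4 : Measurable fun p : ℝ × ℂ => (p.2, p.1) := by fun_prop
        have h5 := hFc.measurable.comp h4
        exact h5
      refine Integrable.of_bound h3.aestronglyMeasurable (Ch * (CG * Cg))
        (Eventually.of_forall fun p => ?_)
      simp only [Function.uncurry]
      rw [norm_mul]
      exact mul_le_mul (hCh _) (hFb _ _) (norm_nonneg _) hCh0
  set T : ℂ → ℂ := fun z => ∫ θ in Ioc 0 (2 * π), FF α β γ G g z θ with hT
  have hTc : Continuous T := by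
    refine continuous_of_dominated (bound := fun _ => CG * Cg) (fun z => ?_)
      (fun z => Eventually.of_forall fun θ => hFb _ _) (integrable_const _)
      (Eventually.of_forall fun θ => ?_)
    · have h2 : Continuous fun θ : ℝ => (z, θ) := by fun_prop
      have h3 := hFc.comp h2
      exact h3.aestronglyMeasurable
    · have h2 : Continuous fun z : ℂ => (z, θ) := by fun_prop
      have h3 := hFc.comp h2
      exact h3
  have hTb : ∀ z, ‖T z‖ ≤ CG * Cg * (2 * π) := by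
    intro z
    have h2 := norm_setIntegral_le_of_norm_le_const (μ := (volume : Measure ℝ))
      (s := Ioc 0 (2 * π)) (f := fun θ => FF α β γ G g z θ) (C := CG * Cg)
      (by rw [Real.volume_Ioc]; exact ENNReal.ofReal_lt_top) fun θ _ => hFb z θ
    rwa [Real.volume_real_Ioc_of_le Real.two_pi_pos.le, sub_zero] at h2
  have h2 : ‖Iform α β γ h G g‖ ≤ Ch * ∫ z, ‖T z‖ ∂ν := by
    rw [h1, ← integral_const_mul]
    refine norm_integral_le_of_norm_le ?_ (Eventually.of_forall fun z => ?_)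
    · exact ((ll_int ν hTc _ hTb).norm).const_mul Ch
    · rw [norm_mul]
      exact mul_le_mul_of_nonneg_right (hCh _) (norm_nonneg _)
  have h3 := ll_cs ν (f := fun z => ‖T z‖) (ll_int ν hTc _ hTb).norm
    (ll_int ν (hTc.norm.pow 2) ((CG * Cg * (2 * π)) ^ 2) fun z => by
      rw [norm_pow, norm_norm]
      exact pow_le_pow_left₀ (norm_nonneg _) (hTb z) 2)
  rw [hνm] at h3
  calc ‖Iform α β γ h G g‖ ^ 2 ≤ (Ch * ∫ z, ‖T z‖ ∂ν) ^ 2 :=
        pow_le_pow_left₀ (norm_nonneg _) h2 2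
    _ = Ch ^ 2 * (∫ z, ‖T z‖ ∂ν) ^ 2 := by ring
    _ ≤ _ := mul_le_mul_of_nonneg_left h3 (by positivity)

end Pool.Agent.H24.Tri
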